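import Pool.Agent.Helper48.Neg.Sem

/-!
# A circuit with two NOT gates: the local minima
-/

namespace Pool.Agent.Helper48.Neg

open Pool.Agent.NPC Pool.Agent.Helper80K4

variable {n : ℕ} {L : List Cj} {x x' : List Bool}

/-- `x'` is better than `x` -/
def Btr (n : ℕ) (L : List Cj) (x' x : List Bool) : Prop :=
  mv ((alls n L).map (V n L x')) < mv ((alls n L).map (V n L x))

theorem circ_cost (x : List Bool) :
    cost ((circ n L).eval x) = 2 * mv ((alls n L).map (V n L x)) := by
  have : (circ n L).eval x = ((alls n L).map (V n L x)).reverse := by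
    unfold Circuit.eval
    change ((alls n L).reverse).map _ = _
    rw [List.map_reverse]
    rfl
  rw [this, cost_reverse]

theorem not_btr (h : IsLocalMin (circ n L).inputs (circ n L).eval x) {k : ℕ}
    (hk : k < 3 * n + 2) : ¬ Btr n L (x.modify k not) x := by
  have h1 := h.2 k hk
  rw [circ_cost, circ_cost] at h1
  unfold Btr
  omega

theorem mv_lt_of_le {β : Type} (l : List β) (f g : β → Bool)
    (h : ∀ t ∈ l, f t = true → g t = true) {o : β} (ho : o ∈ l) (h1 : f o = false)
    (h2 : g o = true) : mv (l.map f) < mv (l.map g) := by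
  obtain ⟨P, S, rfl⟩ := List.append_of_mem ho
  exact improve_one f g P S o (fun t ht => h t (List.mem_append_left _ ht)) h1 h2

/-- `x'` has fewer ones -/
def Le (x' x : List Bool) : Prop := ∀ i, x'.getD i false = true → x.getD i false = true

theorem SS_mono (h : Le x' x) {t : ℕ} : SS n x' t → SS n x t :=
  fun h1 => ⟨h _ h1.1, fun l hl => h _ (h1.2 l hl)⟩

theorem TS_mono (h : Le x' x) {t : ℕ} : TS n x' t → TS n x t :=
  fun h1 => ⟨SS_mono h h1.1, h _ h1.2⟩

theorem RS_mono (h : Le x' x) {t : ℕ} : RS n x' t → RS n x t :=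
  fun h1 => ⟨TS_mono h h1.1, h _ h1.2⟩

theorem KK_mono (h : Le x' x) : KK n x' → KK n x :=
  fun h1 i hi => (h1 i hi).imp (h _) (h _)

theorem FF_mono (h : Le x' x) : FF n x' → FF n x := by
  rintro ⟨i, hi, h1, h2⟩
  exact ⟨i, hi, h _ h1, h _ h2⟩

theorem gg_mono (h : Le x' x) : gg n x' → gg n x := by
  rintro (⟨h1, h2⟩ | ⟨t, ht, h1⟩)
  · exact Or.inl ⟨KK_mono h h1, FF_mono h h2⟩
  · exact Or.inr ⟨t, ht, TS_mono h h1⟩

theorem bb_gg : bb n x → gg n x := by
  rintro ⟨t, ht, h1⟩
  exact Or.inr ⟨t, ht, h1.1⟩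

theorem gg_aa : gg n x → aa n x := by
  rintro (⟨h1, h2⟩ | ⟨t, ht, h1⟩)
  · exact Or.inl h1
  · exact Or.inr ⟨t, ht, h1.1⟩

theorem not_node {i a : ℕ} (h : (circ n L).gates[i]? = some (.not a)) :
    (circ n L).inputs + i = nd n L 15 0 ∨ (circ n L).inputs + i = nd n L 18 0 := by
  obtain ⟨k, i', hk, hi, rfl, hG⟩ := circ_gate_exists h
  have := not_place (n := n) (L := L) hk (by rw [← hG]; rfl)
  rcases this with ⟨rfl, rfl⟩ | ⟨rfl, rfl⟩
  · left
    unfold circ nd
    simp only
    omega
  · right
    unfold circ nd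
    simp only
    omega

theorem le_flip (hx : x.length = 3 * n + 2) {e : ℕ} (he : e < 3 * n + 2)
    (hxe : x.getD e false = true) : Le (x.modify e not) x := by
  intro i hi
  rw [getD_modify (by omega)] at hi
  split_ifs at hi with h1
  · rw [h1]; exact hxe
  · exact hi

theorem flip_getD (hx : x.length = 3 * n + 2) {e : ℕ} (he : e < 3 * n + 2) {j : ℕ}
    (hj : j ≠ e) : (x.modify e not).getD j false = x.getD j false := by
  rw [getD_modify (by omega), if_neg hj]

theorem flip_getD_self (hx : x.length = 3 * n + 2) {e : ℕ} (he : e < 3 * n + 2) :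
    (x.modify e not).getD e false = !(x.getD e false) := by
  rw [getD_modify (by omega), if_pos rfl]

section

variable (hL : LOk n L) (hn : 0 < n) (hx : x.length = 3 * n + 2)

include hL hn hx

theorem mem_alls_20 {i : ℕ} (hi : i < 3 * n + 2) : nd n L 20 i ∈ alls n L := by
  unfold alls
  simp only [List.mem_append, List.mem_map, List.mem_range]
  exact Or.inr (Or.inr (Or.inr ⟨i, hi, rfl⟩))

/-- A one can be removed if the NOT gates allow it. -/
theorem down {e : ℕ} (he : e < 3 * n + 2) (hxe : x.getD e false = true)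
    (h1 : V n L (x.modify e not) (nd n L 15 0) = true → V n L x (nd n L 15 0) = true)
    (h2 : V n L (x.modify e not) (nd n L 18 0) = true → V n L x (nd n L 18 0) = true) :
    Btr n L (x.modify e not) x := by
  have hx' : (x.modify e not).length = 3 * n + 2 := by simpa using hx
  refine mv_lt_of_le _ _ _ (fun t _ => ?_) (mem_alls_20 hL hn hx he) ?_ ?_
  · refine vl_mono' (circ_valid hL hn) hx' hx (le_flip hx he hxe) ?_ t
    intro i a hi hv
    rcases not_node hi with h | h
    · rw [h] at hv ⊢
      exact h1 hv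
    · rw [h] at hv ⊢
      exact h2 hv
  · rw [v20 hL hn hx' he, flip_getD_self hx he, hxe]
    rfl
  · rw [v20 hL hn hx he, hxe]

/-! ### Comparison of the most significant bits -/

theorem first_lt (f g : ℕ → Bool) (h1 : f (nd n L 20 (3 * n + 1)) = false)
    (h2 : g (nd n L 20 (3 * n + 1)) = true) :
    mv ((alls n L).map f) < mv ((alls n L).map g) := by
  unfold alls
  exact improve_one f g [] _ _ (by simp) h1 h2

theorem second_lt (f g : ℕ → Bool) (h0 : f (nd n L 20 (3 * n + 1)) = false)
    (h1 : f (nd n L 35 0) = false) (h2 : g (nd n L 35 0) = true) :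
    mv ((alls n L).map f) < mv ((alls n L).map g) := by
  unfold alls
  refine improve_one f g [nd n L 20 (3 * n + 1)] _ _ ?_ h1 h2
  intro t ht
  simp only [List.mem_cons, List.not_mem_nil, or_false] at ht
  rw [ht, h0]
  intro h
  exact absurd h (by simp)

/-- the bits of the start -/
def trip (n : ℕ) (L : List Cj) (t : ℕ) : List ℕ := [nd n L 32 t, nd n L 33 t, nd n L 34 t]

theorem start_lt (f g : ℕ → Bool) (h0 : f (nd n L 20 (3 * n + 1)) = false)
    (h1 : f (nd n L 35 0) = false) {t : ℕ} (ht : t < n)
    (hs : ∀ s < t, f (nd n L 32 s) = false ∧ f (nd n L 33 s) = false ∧ f (nd n L 34 s) = false)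
    (h2 : mv ((trip n L t).map f) < mv ((trip n L t).map g)) :
    mv ((alls n L).map f) < mv ((alls n L).map g) := by
  obtain ⟨R, hR⟩ := range_flatMap_split (fun t => trip n L t) ht
  unfold alls
  change mv (([nd n L 20 (3 * n + 1), nd n L 35 0] ++
    ((List.range n).flatMap (fun t => trip n L t) ++ _)).map f) < mv (([nd n L 20 (3 * n + 1),
    nd n L 35 0] ++ ((List.range n).flatMap (fun t => trip n L t) ++ _)).map g)
  rw [hR]
  have := improve f g ([nd n L 20 (3 * n + 1), nd n L 35 0] ++
    (List.range t).flatMap (fun t => trip n L t)) (trip n L t) (R ++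
      ((List.range L.length).flatMap (fun j =>
      [nd n L 31 (L.length - 1 - j), nd n L 30 (L.length - 1 - j)]) ++
      (List.range (3 * n + 2)).map fun i => nd n L 20 i)) ?_ h2
  · simpa only [List.append_assoc] using this
  · intro o ho ho2
    exfalso
    simp only [List.mem_append, List.mem_cons, List.not_mem_nil, or_false, List.mem_flatMap,
      List.mem_range, trip] at ho
    rcases ho with (rfl | rfl) | ⟨s, hs', rfl | rfl | rfl⟩
    · rw [h0] at ho2; exact absurd ho2 (by simp)
    · rw [h1] at ho2; exact absurd ho2 (by simp)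
    · rw [(hs s hs').1] at ho2; exact absurd ho2 (by simp)
    · rw [(hs s hs').2.1] at ho2; exact absurd ho2 (by simp)
    · rw [(hs s hs').2.2] at ho2; exact absurd ho2 (by simp)

/-- the main bits -/
def dbl (n : ℕ) (L : List Cj) (j : ℕ) : List ℕ :=
  [nd n L 31 (L.length - 1 - j), nd n L 30 (L.length - 1 - j)]

theorem main_lt (f g : ℕ → Bool) (h0 : f (nd n L 20 (3 * n + 1)) = false)
    (h1 : f (nd n L 35 0) = false)
    (hs : ∀ s < n, f (nd n L 32 s) = false ∧ f (nd n L 33 s) = false ∧ f (nd n L 34 s) = false)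
    {j : ℕ} (hj : j < L.length)
    (hd : ∀ i < j, ∀ o ∈ dbl n L i, f o = true → g o = true)
    (h2 : mv ((dbl n L j).map f) < mv ((dbl n L j).map g)) :
    mv ((alls n L).map f) < mv ((alls n L).map g) := by
  obtain ⟨R, hR⟩ := range_flatMap_split (fun j => dbl n L j) hj
  unfold alls
  change mv (([nd n L 20 (3 * n + 1), nd n L 35 0] ++
    ((List.range n).flatMap (fun t => trip n L t) ++
    ((List.range L.length).flatMap (fun j => dbl n L j) ++ _))).map f) <
    mv (([nd n L 20 (3 * n + 1), nd n L 35 0] ++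
    ((List.range n).flatMap (fun t => trip n L t) ++
    ((List.range L.length).flatMap (fun j => dbl n L j) ++ _))).map g)
  rw [hR]
  have := improve f g ([nd n L 20 (3 * n + 1), nd n L 35 0] ++
    ((List.range n).flatMap (fun t => trip n L t) ++
    (List.range j).flatMap (fun j => dbl n L j))) (dbl n L j) (R ++
      (List.range (3 * n + 2)).map fun i => nd n L 20 i) ?_ h2
  · simpa only [List.append_assoc] using this
  · intro o ho ho2
    simp only [List.mem_append, List.mem_cons, List.not_mem_nil, or_false, List.mem_flatMap,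
      List.mem_range, trip] at ho
    rcases ho with (rfl | rfl) | ⟨s, hs', rfl | rfl | rfl⟩ | ⟨i, hi, ho⟩
    · rw [h0] at ho2; exact absurd ho2 (by simp)
    · rw [h1] at ho2; exact absurd ho2 (by simp)
    · rw [(hs s hs').1] at ho2; exact absurd ho2 (by simp)
    · rw [(hs s hs').2.1] at ho2; exact absurd ho2 (by simp)
    · rw [(hs s hs').2.2] at ho2; exact absurd ho2 (by simp)
    · exact hd i hi o ho ho2

end

end Pool.Agent.Helper48.Neg
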