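import Pool.Agent.Helper48.Neg.Anal

/-!
# A circuit with two NOT gates: the local minima are complete
-/

namespace Pool.Agent.Helper48.Neg

open Pool.Agent.NPC Pool.Agent.Helper80K4

variable {n : ℕ} {L : List Cj} {x : List Bool}

/-- a complete vector -/
structure Cmp (n : ℕ) (x : List Bool) : Prop where
  w : x.getD (3 * n + 1) false = false
  y : ∀ t ≤ n, ¬ Yb x t
  k : KK n x
  f : ¬ FF n x

/-- a vector between two complete ones -/
structure Itm (n : ℕ) (x : List Bool) (i : ℕ) : Prop where
  w : x.getD (3 * n + 1) false = false
  y : ∀ t ≤ n, ¬ Yb x t
  k : KK n x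
  lt : i < n
  u : Ub n x i
  v : Vb n x i
  f : ∀ l < n, l ≠ i → ¬ (Ub n x l ∧ Vb n x l)

theorem not_SS (h : ∀ t ≤ n, ¬ Yb x t) : ¬ ∃ t < n, SS n x t := by
  rintro ⟨t, ht, h1⟩
  exact h t (by omega) h1.1

theorem not_bb (h : ∀ t ≤ n, ¬ Yb x t) : ¬ bb n x := by
  rintro ⟨t, ht, h1⟩
  exact h t (by omega) h1.1.1.1

theorem not_TS (h : ∀ t ≤ n, ¬ Yb x t) : ¬ ∃ t < n, TS n x t := by
  rintro ⟨t, ht, h1⟩
  exact h t (by omega) h1.1.1

theorem Cmp.aa (h : Cmp n x) : aa n x := Or.inl h.k

theorem Cmp.gg (h : Cmp n x) : ¬ gg n x := by
  rintro (⟨_, h1⟩ | h1)
  · exact h.f h1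
  · exact not_TS h.y h1

theorem Cmp.bb (h : Cmp n x) : ¬ bb n x := not_bb h.y

theorem Itm.gg {i : ℕ} (h : Itm n x i) : gg n x := Or.inl ⟨h.k, i, h.lt, h.u, h.v⟩

theorem Itm.bb {i : ℕ} (h : Itm n x i) : ¬ bb n x := not_bb h.y

section

variable (hL : LOk n L) (hn : 0 < n) (hx : x.length = 3 * n + 2)

include hL hn hx

/-- The local minima are complete, or between two complete vectors. -/
theorem shape (hm : ∀ k < 3 * n + 2, ¬ Btr n L (x.modify k not) x) :
    Cmp n x ∨ ∃ i, Itm n x i := by
  -- the bit which should be zero
  have hw : x.getD (3 * n + 1) false = false := by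
    by_contra hcon
    have hw : x.getD (3 * n + 1) false = true := by simpa using hcon
    refine hm (3 * n + 1) (by omega) (first_lt hL hn hx _ _ ?_ ?_)
    · rw [v20 hL hn (by simpa using hx) (by omega), flip_getD_self hx (by omega), hw]
      rfl
    · rw [v20 hL hn hx (by omega), hw]
  have hw' : ∀ e < 3 * n + 1, (x.modify e not).getD (3 * n + 1) false = false := by
    intro e he
    rw [flip_getD hx (by omega) (by omega), hw]
  have hx' : ∀ e, (x.modify e not).length = 3 * n + 2 := fun e => by simpa using hx
  have hlt : ∀ e < 3 * n + 2, x.getD e false = true → e < 3 * n + 1 := by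
    intro e he h
    by_contra hcon
    obtain rfl : e = 3 * n + 1 := by omega
    rw [hw] at h
    exact absurd h (by simp)
  have hf0 : ∀ e < 3 * n + 1, V n L (x.modify e not) (nd n L 20 (3 * n + 1)) = false := by
    intro e he
    rw [v20 hL hn (hx' e) (by omega)]
    exact hw' e he
  have hpA : ∀ e < 3 * n + 1, aa n (x.modify e not) →
      V n L (x.modify e not) (nd n L 35 0) = false := by
    intro e he ha
    rw [← Bool.not_eq_true, v35 hL hn (hx' e) (hw' e he)]
    rintro ⟨h1, _, h2⟩
    exact h2 ⟨h1, ha⟩
  -- the empty region
  have haa : aa n x := by
    by_contra ha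
    have hg : ¬ gg n x := fun h => ha (gg_aa h)
    have hb : ¬ bb n x := fun h => hg (bb_gg h)
    have hz : ∀ e < 3 * n + 2, x.getD e false = false := by
      intro e he
      by_contra hcon
      refine hm e he (down hL hn hx he (by simpa using hcon) ?_ ?_)
      · intro _
        rw [v15 hL hn hx hw]
        exact hg
      · intro _
        rw [v18 hL hn hx hw]
        exact ⟨hb, fun h => ha h.2⟩
    refine hm 0 (by omega) (second_lt hL hn hx _ _ (hf0 0 (by omega)) (hpA 0 (by omega) ?_) ?_)
    · refine Or.inr ⟨0, hn, ?_, fun l hl => absurd hl (by omega)⟩
      unfold Yb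
      rw [flip_getD_self hx (by omega), hz 0 (by omega)]
      rfl
    · rw [v35 hL hn hx hw]
      exact ⟨hg, hb, fun h => ha h.2⟩
  by_cases hg : gg n x
  · by_cases hb : bb n x
    · -- the region of the sets `R_t`
      exfalso
      obtain ⟨t, ht, hR⟩ := hb
      have hmin : ∀ e < 3 * n + 2, x.getD e false = true → ¬ RS n (x.modify e not) t := by
        intro e he h1 h2
        have he' := hlt e he h1
        have hb' : bb n (x.modify e not) := ⟨t, ht, h2⟩
        have hg' := bb_gg hb'
        refine hm e he (down hL hn hx he h1 ?_ ?_)
        · intro h
          rw [v15 hL hn (hx' e) (hw' e he')] at h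
          exact absurd hg' h
        · intro h
          rw [v18 hL hn (hx' e) (hw' e he')] at h
          exact absurd hb' h.1
      have hmem : ∀ e < 3 * n + 2, x.getD e false = true →
          e = t ∨ e = t + 1 ∨ (n + 1 ≤ e ∧ e ≤ n + 1 + t) := by
        intro e he h1
        by_contra hcon
        push Not at hcon
        obtain ⟨c1, c2, c3⟩ := hcon
        apply hmin e he h1
        obtain ⟨⟨⟨r1, r2⟩, r3⟩, r4⟩ := hR
        refine ⟨⟨⟨?_, ?_⟩, ?_⟩, ?_⟩
        · unfold Yb at r1 ⊢
          rw [flip_getD hx he (by omega)]
          exact r1
        · intro l hl
          have := r2 l hl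
          unfold Ub at this ⊢
          rw [flip_getD hx he (by
            rintro rfl
            have := c3 (by omega)
            omega)]
          exact this
        · unfold Ub at r3 ⊢
          rw [flip_getD hx he (by
            rintro rfl
            have := c3 (by omega)
            omega)]
          exact r3
        · unfold Yb at r4 ⊢
          rw [flip_getD hx he (by omega)]
          exact r4
      obtain ⟨⟨⟨r1, r2⟩, r3⟩, r4⟩ := hR
      have hY : ∀ s ≤ t, ¬ Yb (x.modify t not) s := by
        intro s hs h
        unfold Yb at h
        by_cases hst : s = t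
        · subst hst
          rw [flip_getD_self hx (by omega)] at h
          unfold Yb at r1
          rw [r1] at h
          exact absurd h (by simp)
        · rw [flip_getD hx (by omega) hst] at h
          rcases hmem s (by omega) h with h | h | h <;> omega
      have hU : ∀ l ≤ t, Ub n (x.modify t not) l := by
        intro l hl
        have : Ub n x l := by
          rcases Nat.lt_or_ge l t with h | h
          · exact r2 l h
          · obtain rfl : l = t := by omega
            exact r3
        unfold Ub at this ⊢
        rw [flip_getD hx (by omega) (by omega)]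
        exact this
      have hY1 : Yb (x.modify t not) (t + 1) := by
        unfold Yb at r4 ⊢
        rw [flip_getD hx (by omega) (by omega)]
        exact r4
      have ha' : aa n (x.modify t not) := by
        by_cases h1 : t + 1 < n
        · exact Or.inr ⟨t + 1, h1, hY1, fun l hl => hU l (by omega)⟩
        · exact Or.inl fun i hi => Or.inl (hU i (by omega))
      have hw1 := hw' t (by omega)
      have hbits : ∀ s ≤ t, V n L (x.modify t not) (nd n L 32 s) = false ∧
          V n L (x.modify t not) (nd n L 33 s) = false ∧
          V n L (x.modify t not) (nd n L 34 s) = false := by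
        intro s hs
        refine ⟨?_, ?_, ?_⟩
        · rw [← Bool.not_eq_true, v32 hL hn (hx' t) hw1 (by omega)]
          exact fun h => hY s hs h.1.1
        · rw [← Bool.not_eq_true, v33 hL hn (hx' t) hw1 (by omega)]
          exact fun h => hY s hs h.1.1.1
        · rw [← Bool.not_eq_true, v34 hL hn (hx' t) (by omega)]
          exact fun h => hY s hs h.1.1.1
      refine hm t (by omega) (start_lt hL hn hx _ _ (hf0 t (by omega)) (hpA t (by omega) ha') ht
        (fun s hs => hbits s (by omega)) ?_)
      have h34 : V n L x (nd n L 34 t) = true := by
        rw [v34 hL hn hx ht]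
        exact ⟨⟨⟨r1, r2⟩, r3⟩, r4⟩
      obtain ⟨b1, b2, b3⟩ := hbits t le_rfl
      simp only [trip, List.map_cons, List.map_nil, Helper80K4.mv, List.length_cons, List.length_nil, b1, b2,
        b3, h34, Bool.toNat_false, Bool.toNat_true]
      norm_num
    · -- the region of the sets `T_t` and of the vectors between complete ones
      have hmin : ∀ e < 3 * n + 2, x.getD e false = true → ¬ gg n (x.modify e not) := by
        intro e he h1 hg'
        have he' := hlt e he h1
        refine hm e he (down hL hn hx he h1 ?_ ?_)
        · intro h
          rw [v15 hL hn (hx' e) (hw' e he')] at h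
          exact absurd hg' h
        · intro _
          rw [v18 hL hn hx hw]
          exact ⟨hb, fun h => h.1 hg⟩
      rcases id hg with ⟨hK, hF⟩ | ⟨t, ht, hT⟩
      · right
        obtain ⟨i, hi, hu, hv⟩ := hF
        refine ⟨i, hw, ?_, hK, hi, hu, hv, ?_⟩
        · intro t ht h
          refine hmin t (by omega) h (Or.inl ⟨?_, i, hi, ?_, ?_⟩)
          · intro l hl
            refine (hK l hl).imp ?_ ?_
            · intro h
              unfold Ub at h ⊢
              rw [flip_getD hx (by omega) (by omega)]
              exact h
            · intro h
              unfold Vb at h ⊢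
              rw [flip_getD hx (by omega) (by omega)]
              exact h
          · unfold Ub at hu ⊢
            rw [flip_getD hx (by omega) (by omega)]
            exact hu
          · unfold Vb at hv ⊢
            rw [flip_getD hx (by omega) (by omega)]
            exact hv
        · rintro l hl hli ⟨h1, h2⟩
          refine hmin (n + 1 + l) (by omega) h1 (Or.inl ⟨?_, i, hi, ?_, ?_⟩)
          · intro m hm'
            by_cases hml : m = l
            · subst hml
              right
              unfold Vb at h2 ⊢
              rw [flip_getD hx (by omega) (by omega)]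
              exact h2
            · refine (hK m hm').imp ?_ ?_
              · intro h
                unfold Ub at h ⊢
                rw [flip_getD hx (by omega) (by omega)]
                exact h
              · intro h
                unfold Vb at h ⊢
                rw [flip_getD hx (by omega) (by omega)]
                exact h
          · unfold Ub at hu ⊢
            rw [flip_getD hx (by omega) (by omega)]
            exact hu
          · unfold Vb at hv ⊢
            rw [flip_getD hx (by omega) (by omega)]
            exact hv
      · exfalso
        obtain ⟨⟨r1, r2⟩, r3⟩ := hT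
        have hmem : ∀ e < 3 * n + 2, x.getD e false = true →
            e = t ∨ (n + 1 ≤ e ∧ e ≤ n + 1 + t) := by
          intro e he h1
          by_contra hcon
          push Not at hcon
          obtain ⟨c1, c3⟩ := hcon
          apply hmin e he h1
          refine Or.inr ⟨t, ht, ⟨?_, ?_⟩, ?_⟩
          · unfold Yb at r1 ⊢
            rw [flip_getD hx he (by omega)]
            exact r1
          · intro l hl
            have := r2 l hl
            unfold Ub at this ⊢
            rw [flip_getD hx he (by
              rintro rfl
              have := c3 (by omega)
              omega)]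
            exact this
          · unfold Ub at r3 ⊢
            rw [flip_getD hx he (by
              rintro rfl
              have := c3 (by omega)
              omega)]
            exact r3
        have ht1 : x.getD (t + 1) false = false := by
          by_contra hcon
          rcases hmem (t + 1) (by omega) (by simpa using hcon) with h | h <;> omega
        have hR' : RS n (x.modify (t + 1) not) t := by
          refine ⟨⟨⟨?_, ?_⟩, ?_⟩, ?_⟩
          · unfold Yb at r1 ⊢
            rw [flip_getD hx (by omega) (by omega)]
            exact r1
          · intro l hl
            have := r2 l hl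
            unfold Ub at this ⊢
            rw [flip_getD hx (by omega) (by omega)]
            exact this
          · unfold Ub at r3 ⊢
            rw [flip_getD hx (by omega) (by omega)]
            exact r3
          · unfold Yb
            rw [flip_getD_self hx (by omega), ht1]
            rfl
        have hb' : bb n (x.modify (t + 1) not) := ⟨t, ht, hR'⟩
        have hg' := bb_gg hb'
        have hw1 := hw' (t + 1) (by omega)
        have b32 : ∀ s < n, V n L (x.modify (t + 1) not) (nd n L 32 s) = false := by
          intro s hs
          rw [← Bool.not_eq_true, v32 hL hn (hx' _) hw1 hs]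
          exact fun h => h.2 hg'
        have b33 : ∀ s < n, V n L (x.modify (t + 1) not) (nd n L 33 s) = false := by
          intro s hs
          rw [← Bool.not_eq_true, v33 hL hn (hx' _) hw1 hs]
          exact fun h => h.2.1 hb'
        have b34 : ∀ s < t, V n L (x.modify (t + 1) not) (nd n L 34 s) = false := by
          intro s hs
          rw [← Bool.not_eq_true, v34 hL hn (hx' _) (by omega)]
          intro h
          have h1 := h.1.1.1
          unfold Yb at h1
          rw [flip_getD hx (by omega) (by omega)] at h1
          rcases hmem s (by omega) h1 with h | h <;> omega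
        refine hm (t + 1) (by omega) (start_lt hL hn hx _ _ (hf0 _ (by omega))
          (hpA _ (by omega) (gg_aa hg')) ht
          (fun s hs => ⟨b32 s (by omega), b33 s (by omega), b34 s hs⟩) ?_)
        have h33 : V n L x (nd n L 33 t) = true := by
          rw [v33 hL hn hx hw ht]
          exact ⟨⟨⟨r1, r2⟩, r3⟩, hb, fun h => h.1 hg⟩
        have b1 := b32 t ht
        have b2 := b33 t ht
        simp only [trip, List.map_cons, List.map_nil, Helper80K4.mv, List.length_cons, List.length_nil, b1,
          b2, h33, Bool.toNat_false, Bool.toNat_true]
        have := Bool.toNat_le (V n L (x.modify (t + 1) not) (nd n L 34 t))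
        norm_num
        omega
  · -- the region of the sets `S_t` and of the complete vectors
    have hb : ¬ bb n x := fun h => hg (bb_gg h)
    have hmin : ∀ e < 3 * n + 2, x.getD e false = true → ¬ aa n (x.modify e not) := by
      intro e he h1 ha'
      have he' := hlt e he h1
      have hg' : ¬ gg n (x.modify e not) := fun h => hg (gg_mono (le_flip hx he h1) h)
      refine hm e he (down hL hn hx he h1 ?_ ?_)
      · intro _
        rw [v15 hL hn hx hw]
        exact hg
      · intro h
        rw [v18 hL hn (hx' e) (hw' e he')] at h
        exact absurd ⟨hg', ha'⟩ h.2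
    rcases id haa with hK | ⟨t, ht, hS⟩
    · left
      refine ⟨hw, ?_, hK, ?_⟩
      · intro t ht h
        refine hmin t (by omega) h (Or.inl ?_)
        intro l hl
        refine (hK l hl).imp ?_ ?_
        · intro h
          unfold Ub at h ⊢
          rw [flip_getD hx (by omega) (by omega)]
          exact h
        · intro h
          unfold Vb at h ⊢
          rw [flip_getD hx (by omega) (by omega)]
          exact h
      · intro hF
        exact hg (Or.inl ⟨hK, hF⟩)
    · exfalso
      obtain ⟨r1, r2⟩ := hS
      have hmem : ∀ e < 3 * n + 2, x.getD e false = true →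
          e = t ∨ (n + 1 ≤ e ∧ e < n + 1 + t) := by
        intro e he h1
        by_contra hcon
        push Not at hcon
        obtain ⟨c1, c3⟩ := hcon
        apply hmin e he h1
        refine Or.inr ⟨t, ht, ?_, ?_⟩
        · unfold Yb at r1 ⊢
          rw [flip_getD hx he (by omega)]
          exact r1
        · intro l hl
          have := r2 l hl
          unfold Ub at this ⊢
          rw [flip_getD hx he (by
            rintro rfl
            have := c3 (by omega)
            omega)]
          exact this
      have ht1 : x.getD (n + 1 + t) false = false := by
        by_contra hcon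
        rcases hmem (n + 1 + t) (by omega) (by simpa using hcon) with h | h <;> omega
      have hT' : TS n (x.modify (n + 1 + t) not) t := by
        refine ⟨⟨?_, ?_⟩, ?_⟩
        · unfold Yb at r1 ⊢
          rw [flip_getD hx (by omega) (by omega)]
          exact r1
        · intro l hl
          have := r2 l hl
          unfold Ub at this ⊢
          rw [flip_getD hx (by omega) (by omega)]
          exact this
        · unfold Ub
          rw [flip_getD_self hx (by omega), ht1]
          rfl
      have hg' : gg n (x.modify (n + 1 + t) not) := Or.inr ⟨t, ht, hT'⟩
      have hw1 := hw' (n + 1 + t) (by omega)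
      have hYs : ∀ s < t, ¬ Yb (x.modify (n + 1 + t) not) s := by
        intro s hs h
        unfold Yb at h
        rw [flip_getD hx (by omega) (by omega)] at h
        rcases hmem s (by omega) h with h | h <;> omega
      have b32 : ∀ s < n, V n L (x.modify (n + 1 + t) not) (nd n L 32 s) = false := by
        intro s hs
        rw [← Bool.not_eq_true, v32 hL hn (hx' _) hw1 hs]
        exact fun h => h.2 hg'
      have b33 : ∀ s < t, V n L (x.modify (n + 1 + t) not) (nd n L 33 s) = false := by
        intro s hs
        rw [← Bool.not_eq_true, v33 hL hn (hx' _) hw1 (by omega)]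
        exact fun h => hYs s hs h.1.1.1
      have b34 : ∀ s < t, V n L (x.modify (n + 1 + t) not) (nd n L 34 s) = false := by
        intro s hs
        rw [← Bool.not_eq_true, v34 hL hn (hx' _) (by omega)]
        exact fun h => hYs s hs h.1.1.1
      refine hm (n + 1 + t) (by omega) (start_lt hL hn hx _ _ (hf0 _ (by omega))
        (hpA _ (by omega) (gg_aa hg')) ht
        (fun s hs => ⟨b32 s (by omega), b33 s hs, b34 s hs⟩) ?_)
      have h32 : V n L x (nd n L 32 t) = true := by
        rw [v32 hL hn hx hw ht]
        exact ⟨⟨r1, r2⟩, hg⟩
      have b1 := b32 t ht
      simp only [trip, List.map_cons, List.map_nil, Helper80K4.mv, List.length_cons, List.length_nil, b1,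
        h32, Bool.toNat_false, Bool.toNat_true]
      have := Bool.toNat_le (V n L (x.modify (n + 1 + t) not) (nd n L 33 t))
      have := Bool.toNat_le (V n L (x.modify (n + 1 + t) not) (nd n L 34 t))
      norm_num
      omega

end

end Pool.Agent.Helper48.Neg
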