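import Pool.Agent.Helper48.Neg.Anal2

/-!
# A circuit with two NOT gates: the complete vectors
-/

namespace Pool.Agent.Helper48.Neg

open Pool.Agent.NPC Pool.Agent.Helper80K4

variable {n : ℕ} {L : List Cj} {x : List Bool}

/-- the bits `u_i` -/
def vec (n : ℕ) (x : List Bool) : List Bool := (List.range n).map fun i => x.getD (n + 1 + i) false

theorem vec_length : (vec n x).length = n := by simp [vec]

theorem vec_getD {l : ℕ} (hl : l < n) : (vec n x).getD l false = x.getD (n + 1 + l) false := by
  unfold vec
  rw [List.getD_eq_getElem _ _ (by simpa using hl), List.getElem_map, List.getElem_range]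

theorem conj_iff (y : List Bool) (T : Cj) :
    conj y T = true ↔ ∀ p ∈ T, y.getD p.1 false = p.2 := by
  unfold conj
  rw [List.all_eq_true]
  simp only [beq_iff_eq]

/-- exactly one of the two bits -/
theorem Cmp.iff (h : Cmp n x) {l : ℕ} (hl : l < n) : Vb n x l ↔ ¬ Ub n x l := by
  constructor
  · intro h1 h2
    exact h.f ⟨l, hl, h2, h1⟩
  · intro h1
    rcases h.k l hl with h2 | h2
    · exact absurd h2 h1
    · exact h2

theorem Itm.iff {i : ℕ} (h : Itm n x i) {l : ℕ} (hl : l < n) (hli : l ≠ i) :
    Vb n x l ↔ ¬ Ub n x l := by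
  constructor
  · intro h1 h2
    exact h.f l hl hli ⟨h2, h1⟩
  · intro h1
    rcases h.k l hl with h2 | h2
    · exact absurd h2 h1
    · exact h2

theorem Itm.other {i : ℕ} (h : Itm n x i) {l : ℕ} :
    (∃ m < n, m ≠ l ∧ Ub n x m ∧ Vb n x m) ↔ l ≠ i := by
  constructor
  · rintro ⟨m, hm, h1, h2⟩ rfl
    exact h.f m hm h1 h2
  · intro hli
    exact ⟨i, h.lt, fun h => hli h.symm, h.u, h.v⟩

section

variable (hL : LOk n L) (hn : 0 < n) (hx : x.length = 3 * n + 2)

include hL

theorem mem_lt {j : ℕ} {p : ℕ × Bool} (hp : p ∈ L.getD j []) : p.1 < n := by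
  by_cases hj : j < L.length
  · rw [List.getD_eq_getElem _ _ hj] at hp
    exact (hL _ (List.getElem_mem _)).2 p hp
  · rw [List.getD_eq_default _ _ (by omega)] at hp
    simp at hp

include hn hx

theorem lit_u {q : ℕ} (hq : q ≠ 1) {l : ℕ} (hl : l < n) :
    V n L x (lit n L q (l, true)) = true ↔ Ub n x l := by
  unfold lit
  simp only [if_true]
  rw [if_neg hq, V_inp hx (by omega)]
  rfl

theorem lit_v {q : ℕ} (hq : q ≠ 2) {l : ℕ} (hl : l < n) :
    V n L x (lit n L q (l, false)) = true ↔ Vb n x l := by
  unfold lit
  simp only [Bool.false_eq_true, if_false]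
  rw [if_neg hq, V_inp hx (by omega)]
  rfl

theorem cmp_ch (h : Cmp n x) {j : ℕ} (hj : j < L.length) :
    V n L x (nd n L 23 j) = true ↔ conj (vec n x) (L.getD j []) = true := by
  have h1 := vch hL hn hx (q := 0) (j := j) (by norm_num) hj
  rw [show 23 + 3 * 0 = 23 by norm_num] at h1
  rw [h1, conj_iff]
  have h2 : V n L x (zz n L 0) = true := by
    unfold zz
    rw [if_pos rfl, v16 hL hn hx h.w]
    exact ⟨h.gg, h.aa⟩
  rw [h2]
  simp only [true_and]
  refine forall_congr' fun p => forall_congr' fun hp => ?_
  have hl := mem_lt hL hp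
  obtain ⟨l, b⟩ := p
  simp only at hl ⊢
  rw [vec_getD hl]
  cases b
  · rw [lit_v hL hn hx (by norm_num) hl, h.iff hl]
    unfold Ub
    simp
  · rw [lit_u hL hn hx (by norm_num) hl]
    rfl

theorem cmp_c {q : ℕ} (h : Cmp n x) (hq : 0 < q) (hq3 : q < 3) {j : ℕ} (hj : j < L.length) :
    V n L x (nd n L (23 + 3 * q) j) = false := by
  rw [← Bool.not_eq_true, vch hL hn hx hq3 hj]
  rintro ⟨h1, _⟩
  unfold zz at h1
  rw [if_neg (by omega), v19 hL hn hx h.w] at h1
  exact h.gg h1.1

/-- the main bits of a complete vector -/
theorem cmp_bits (h : Cmp n x) {j : ℕ} (hj : j < L.length) :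
    V n L x (nd n L 31 j) = conj (vec n x) (L.getD j []) ∧
      V n L x (nd n L 30 j) = conj (vec n x) (L.getD j []) := by
  have h1 := cmp_ch hL hn hx h hj
  have h2 := cmp_c hL hn hx h (q := 1) (by norm_num) (by norm_num) hj
  have h3 := cmp_c hL hn hx h (q := 2) (by norm_num) (by norm_num) hj
  constructor
  · rw [Bool.eq_iff_iff, v31 hL hn hx hj, ← h1]
    rw [show 23 + 3 * 1 = 26 by norm_num] at h2
    rw [h2]
    simp
  · rw [Bool.eq_iff_iff, v30 hL hn hx hj, ← h1]
    rw [show 23 + 3 * 2 = 29 by norm_num] at h3
    rw [h3]
    simp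

/-- the main bits of a vector between two complete ones -/
theorem itm_bits {i : ℕ} (h : Itm n x i) {j : ℕ} (hj : j < L.length) :
    V n L x (nd n L 31 j) = conj ((vec n x).modify i not) (L.getD j []) ∧
      V n L x (nd n L 30 j) = conj (vec n x) (L.getD j []) := by
  have hz : V n L x (nd n L 16 0) = false := by
    rw [← Bool.not_eq_true, v16 hL hn hx h.w]
    exact fun h1 => h1.1 h.gg
  have h0 : V n L x (nd n L 23 j) = false := by
    rw [← Bool.not_eq_true]
    have h1 := vch hL hn hx (q := 0) (j := j) (by norm_num) hj
    rw [show 23 + 3 * 0 = 23 by norm_num] at h1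
    rw [h1]
    rintro ⟨h2, _⟩
    unfold zz at h2
    rw [if_pos rfl, hz] at h2
    exact absurd h2 (by simp)
  have hg : V n L x (nd n L 19 0) = true := by
    rw [v19 hL hn hx h.w]
    exact ⟨h.gg, h.bb⟩
  have hi := h.lt
  have hvi : (vec n x).getD i false = true := by
    rw [vec_getD hi]
    exact h.u
  constructor
  · rw [Bool.eq_iff_iff, v31 hL hn hx hj, h0]
    have h1 := vch hL hn hx (q := 1) (j := j) (by norm_num) hj
    rw [show 23 + 3 * 1 = 26 by norm_num] at h1
    rw [h1, conj_iff]
    have h2 : V n L x (zz n L 1) = true := by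
      unfold zz
      rw [if_neg (by norm_num)]
      exact hg
    rw [h2]
    simp only [true_and, Bool.false_eq_true, false_or]
    refine forall_congr' fun p => forall_congr' fun hp => ?_
    have hl := mem_lt hL hp
    obtain ⟨l, b⟩ := p
    simp only at hl ⊢
    rw [getD_modify (by rw [vec_length]; exact hi)]
    cases b
    · rw [lit_v hL hn hx (by norm_num) hl]
      split_ifs with hli
      · subst hli
        rw [hvi]
        simp [h.v]
      · rw [vec_getD hl, h.iff hl hli]
        unfold Ub
        simp
    · unfold lit
      simp only [if_true]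
      rw [v5 hL hn hx h.w hl, h.other]
      split_ifs with hli
      · subst hli
        rw [hvi]
        simp
      · rw [vec_getD hl]
        unfold Ub
        simp [hli]
  · rw [Bool.eq_iff_iff, v30 hL hn hx hj, h0]
    have h1 := vch hL hn hx (q := 2) (j := j) (by norm_num) hj
    rw [show 23 + 3 * 2 = 29 by norm_num] at h1
    rw [h1, conj_iff]
    have h2 : V n L x (zz n L 2) = true := by
      unfold zz
      rw [if_neg (by norm_num)]
      exact hg
    rw [h2]
    simp only [true_and, Bool.false_eq_true, false_or]
    refine forall_congr' fun p => forall_congr' fun hp => ?_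
    have hl := mem_lt hL hp
    obtain ⟨l, b⟩ := p
    simp only at hl ⊢
    rw [vec_getD hl]
    cases b
    · unfold lit
      simp only [Bool.false_eq_true, if_false, if_true]
      rw [v6 hL hn hx h.w hl, h.other]
      by_cases hli : l = i
      · subst hli
        have := h.u
        unfold Ub at this
        rw [this]
        simp
      · rw [h.iff hl hli]
        unfold Ub
        simp [hli]
    · rw [lit_u hL hn hx (by norm_num) hl]
      rfl

/-- the bits of the start vanish -/
theorem no_start (hw : x.getD (3 * n + 1) false = false) (hy : ∀ t ≤ n, ¬ Yb x t) :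
    ∀ s < n, V n L x (nd n L 32 s) = false ∧ V n L x (nd n L 33 s) = false ∧
      V n L x (nd n L 34 s) = false := by
  intro s hs
  refine ⟨?_, ?_, ?_⟩
  · rw [← Bool.not_eq_true, v32 hL hn hx hw hs]
    exact fun h => hy s (by omega) h.1.1
  · rw [← Bool.not_eq_true, v33 hL hn hx hw hs]
    exact fun h => hy s (by omega) h.1.1.1
  · rw [← Bool.not_eq_true, v34 hL hn hx hs]
    exact fun h => hy s (by omega) h.1.1.1

theorem no_A (hw : x.getD (3 * n + 1) false = false) (ha : aa n x) :
    V n L x (nd n L 35 0) = false := by
  rw [← Bool.not_eq_true, v35 hL hn hx hw]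
  rintro ⟨h1, _, h2⟩
  exact h2 ⟨h1, ha⟩

end

/-! ### The neighbours -/

theorem itm_cmp_u (hx : x.length = 3 * n + 2) {i : ℕ} (h : Itm n x i) :
    Cmp n (x.modify (n + 1 + i) not) ∧
      vec n (x.modify (n + 1 + i) not) = (vec n x).modify i not := by
  have hi := h.lt
  refine ⟨⟨?_, ?_, ?_, ?_⟩, ?_⟩
  · rw [flip_getD hx (by omega) (by omega)]
    exact h.w
  · intro t ht h1
    unfold Yb at h1
    rw [flip_getD hx (by omega) (by omega)] at h1
    exact h.y t ht h1
  · intro l hl
    by_cases hli : l = i
    · subst hli
      right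
      have := h.v
      unfold Vb at this ⊢
      rw [flip_getD hx (by omega) (by omega)]
      exact this
    · refine (h.k l hl).imp ?_ ?_
      · intro h1
        unfold Ub at h1 ⊢
        rw [flip_getD hx (by omega) (by omega)]
        exact h1
      · intro h1
        unfold Vb at h1 ⊢
        rw [flip_getD hx (by omega) (by omega)]
        exact h1
  · rintro ⟨l, hl, h1, h2⟩
    unfold Ub at h1
    unfold Vb at h2
    by_cases hli : l = i
    · subst hli
      have := h.u
      unfold Ub at this
      rw [flip_getD_self hx (by omega), this] at h1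
      exact absurd h1 (by simp)
    · rw [flip_getD hx (by omega) (by omega)] at h1 h2
      exact h.f l hl hli ⟨h1, h2⟩
  · refine ext_getD (by simp [vec_length]) fun l hl => ?_
    rw [vec_length] at hl
    rw [vec_getD hl, getD_modify (x := vec n x) (by rw [vec_length]; exact hi)]
    split_ifs with hli
    · subst hli
      rw [flip_getD_self hx (by omega), vec_getD hl]
    · rw [flip_getD hx (by omega) (by omega), vec_getD hl]

theorem itm_cmp_v (hx : x.length = 3 * n + 2) {i : ℕ} (h : Itm n x i) :
    Cmp n (x.modify (2 * n + 1 + i) not) ∧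
      vec n (x.modify (2 * n + 1 + i) not) = vec n x := by
  have hi := h.lt
  refine ⟨⟨?_, ?_, ?_, ?_⟩, ?_⟩
  · rw [flip_getD hx (by omega) (by omega)]
    exact h.w
  · intro t ht h1
    unfold Yb at h1
    rw [flip_getD hx (by omega) (by omega)] at h1
    exact h.y t ht h1
  · intro l hl
    by_cases hli : l = i
    · subst hli
      left
      have := h.u
      unfold Ub at this ⊢
      rw [flip_getD hx (by omega) (by omega)]
      exact this
    · refine (h.k l hl).imp ?_ ?_
      · intro h1
        unfold Ub at h1 ⊢
        rw [flip_getD hx (by omega) (by omega)]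
        exact h1
      · intro h1
        unfold Vb at h1 ⊢
        rw [flip_getD hx (by omega) (by omega)]
        exact h1
  · rintro ⟨l, hl, h1, h2⟩
    unfold Ub at h1
    unfold Vb at h2
    by_cases hli : l = i
    · subst hli
      have := h.v
      unfold Vb at this
      rw [flip_getD_self hx (by omega), this] at h2
      exact absurd h2 (by simp)
    · rw [flip_getD hx (by omega) (by omega)] at h1 h2
      exact h.f l hl hli ⟨h1, h2⟩
  · refine ext_getD (by simp [vec_length]) fun l hl => ?_
    rw [vec_length] at hl
    rw [vec_getD hl, vec_getD hl, flip_getD hx (by omega) (by omega)]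

/-- the vector between a complete one and its neighbour -/
theorem cmp_itm (hx : x.length = 3 * n + 2) (h : Cmp n x) {i : ℕ} (hi : i < n) :
    (Ub n x i → Itm n (x.modify (2 * n + 1 + i) not) i ∧
      vec n (x.modify (2 * n + 1 + i) not) = vec n x) ∧
    (¬ Ub n x i → Itm n (x.modify (n + 1 + i) not) i ∧
      vec n (x.modify (n + 1 + i) not) = (vec n x).modify i not) := by
  constructor
  · intro hu
    have hv : ¬ Vb n x i := fun h1 => h.f ⟨i, hi, hu, h1⟩
    refine ⟨⟨?_, ?_, ?_, hi, ?_, ?_, ?_⟩, ?_⟩
    · rw [flip_getD hx (by omega) (by omega)]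
      exact h.w
    · intro t ht h1
      unfold Yb at h1
      rw [flip_getD hx (by omega) (by omega)] at h1
      exact h.y t ht h1
    · intro l hl
      by_cases hli : l = i
      · subst hli
        left
        unfold Ub at hu ⊢
        rw [flip_getD hx (by omega) (by omega)]
        exact hu
      · refine (h.k l hl).imp ?_ ?_
        · intro h1
          unfold Ub at h1 ⊢
          rw [flip_getD hx (by omega) (by omega)]
          exact h1
        · intro h1
          unfold Vb at h1 ⊢
          rw [flip_getD hx (by omega) (by omega)]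
          exact h1
    · unfold Ub at hu ⊢
      rw [flip_getD hx (by omega) (by omega)]
      exact hu
    · unfold Vb at hv ⊢
      rw [flip_getD_self hx (by omega)]
      simpa using hv
    · rintro l hl hli ⟨h1, h2⟩
      unfold Ub at h1
      unfold Vb at h2
      rw [flip_getD hx (by omega) (by omega)] at h1 h2
      exact h.f ⟨l, hl, h1, h2⟩
    · refine ext_getD (by simp [vec_length]) fun l hl => ?_
      rw [vec_length] at hl
      rw [vec_getD hl, vec_getD hl, flip_getD hx (by omega) (by omega)]
  · intro hu
    have hv : Vb n x i := (h.iff hi).2 hu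
    refine ⟨⟨?_, ?_, ?_, hi, ?_, ?_, ?_⟩, ?_⟩
    · rw [flip_getD hx (by omega) (by omega)]
      exact h.w
    · intro t ht h1
      unfold Yb at h1
      rw [flip_getD hx (by omega) (by omega)] at h1
      exact h.y t ht h1
    · intro l hl
      by_cases hli : l = i
      · subst hli
        right
        unfold Vb at hv ⊢
        rw [flip_getD hx (by omega) (by omega)]
        exact hv
      · refine (h.k l hl).imp ?_ ?_
        · intro h1
          unfold Ub at h1 ⊢
          rw [flip_getD hx (by omega) (by omega)]
          exact h1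
        · intro h1
          unfold Vb at h1 ⊢
          rw [flip_getD hx (by omega) (by omega)]
          exact h1
    · unfold Ub at hu ⊢
      rw [flip_getD_self hx (by omega)]
      simpa using hu
    · unfold Vb at hv ⊢
      rw [flip_getD hx (by omega) (by omega)]
      exact hv
    · rintro l hl hli ⟨h1, h2⟩
      unfold Ub at h1
      unfold Vb at h2
      rw [flip_getD hx (by omega) (by omega)] at h1 h2
      exact h.f ⟨l, hl, h1, h2⟩
    · refine ext_getD (by simp [vec_length]) fun l hl => ?_
      rw [vec_length] at hl
      rw [vec_getD hl, getD_modify (x := vec n x) (by rw [vec_length]; exact hi)]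
      split_ifs with hli
      · subst hli
        rw [flip_getD_self hx (by omega), vec_getD hl]
      · rw [flip_getD hx (by omega) (by omega), vec_getD hl]

/-! ### Lexicographic comparison -/

/-- the first difference -/
theorem first_diff (m : ℕ) (f g : ℕ → Bool) : (∀ j < m, f j = g j) ∨
    ∃ j < m, (∀ i < j, f i = g i) ∧ f j ≠ g j := by
  by_cases h : ∀ j < m, f j = g j
  · exact Or.inl h
  · right
    push Not at h
    classical
    let j := Nat.find h
    obtain ⟨h1, h2⟩ := Nat.find_spec h
    refine ⟨j, h1, fun i hi => ?_, h2⟩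
    by_contra h3
    exact Nat.find_min h hi ⟨by omega, h3⟩

theorem range_split {m j : ℕ} (h : j < m) : ∃ R, List.range m = List.range j ++ j :: R := by
  obtain ⟨k, rfl⟩ : ∃ k, m = j + 1 + k := ⟨m - (j + 1), by omega⟩
  rw [List.range_add, List.range_succ]
  exact ⟨_, by simp; rfl⟩

theorem lex_of_lt {m : ℕ} {f g : ℕ → Bool}
    (h : Helper80K4.mv ((List.range m).map f) < Helper80K4.mv ((List.range m).map g)) :
    ∃ j < m, (∀ i < j, f i = g i) ∧ f j = false ∧ g j = true := by
  rcases first_diff m f g with h1 | ⟨j, hj, h1, h2⟩
  · exfalso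
    have : (List.range m).map f = (List.range m).map g :=
      List.map_congr_left fun j hj => h1 j (List.mem_range.1 hj)
    rw [this] at h
    omega
  · refine ⟨j, hj, h1, ?_⟩
    cases hf : f j
    · cases hg : g j
      · rw [hf, hg] at h2
        exact absurd rfl h2
      · exact ⟨rfl, rfl⟩
    · exfalso
      have hg : g j = false := by
        cases hg : g j
        · rfl
        · rw [hf, hg] at h2
          exact absurd rfl h2
      obtain ⟨R, hR⟩ := range_split hj
      rw [hR] at h
      have := improve_one g f (List.range j) R j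
        (fun t ht => by rw [h1 t (List.mem_range.1 ht)]; exact fun h => h) hg hf
      omega

theorem cost_conj (n : ℕ) (L : List Cj) (y : List Bool) :
    cost (ConjMap.eval ⟨n, L⟩ y) = 2 * Helper80K4.mv ((List.range L.length).map
      fun j => conj y (L.getD (L.length - 1 - j) [])) := by
  have : ConjMap.eval ⟨n, L⟩ y = ((List.range L.length).map
      fun j => conj y (L.getD (L.length - 1 - j) [])).reverse := by
    unfold ConjMap.eval
    refine List.ext_getElem (by simp) fun i h1 h2 => ?_
    have hi : i < L.length := by simpa using h1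
    rw [List.getElem_map, List.getElem_reverse, List.getElem_map, List.getElem_range]
    simp only [List.length_map, List.length_range]
    rw [show L.length - 1 - (L.length - 1 - i) = i by omega, List.getD_eq_getElem _ _ hi]
  rw [this, cost_reverse]

section

variable (hL : LOk n L) (hn : 0 < n) (hx : x.length = 3 * n + 2)

include hL hn hx

/-- The vectors between complete ones are not local minima. -/
theorem itm_not (hm : ∀ k < 3 * n + 2, ¬ Btr n L (x.modify k not) x) {i : ℕ}
    (h : Itm n x i) : False := by
  have hi := h.lt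
  obtain ⟨hu, eu⟩ := itm_cmp_u hx h
  obtain ⟨hv, ev⟩ := itm_cmp_v hx h
  have hxu : (x.modify (n + 1 + i) not).length = 3 * n + 2 := by simpa using hx
  have hxv : (x.modify (2 * n + 1 + i) not).length = 3 * n + 2 := by simpa using hx
  have hjj : ∀ j < L.length, L.length - 1 - j < L.length := fun j hj => by omega
  rcases first_diff L.length (fun j => conj ((vec n x).modify i not) (L.getD (L.length - 1 - j) []))
    (fun j => conj (vec n x) (L.getD (L.length - 1 - j) [])) with he | ⟨j, hj, he, hd⟩
  · -- remove `u`
    refine hm (n + 1 + i) (by omega) (mv_lt_of_le _ _ _ ?_ (mem_alls_20 hL hn hx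
      (show n + 1 + i < 3 * n + 2 by omega)) ?_ ?_)
    · intro o ho h1
      have hA := no_A hL hn hxu hu.w hu.aa
      have hS := no_start hL hn hxu hu.w hu.y
      unfold alls at ho
      simp only [List.mem_append, List.mem_cons, List.not_mem_nil, or_false, List.mem_flatMap,
        List.mem_range, List.mem_map] at ho
      rcases ho with (rfl | rfl) | ⟨t, ht, rfl | rfl | rfl⟩ | ⟨j, hj, rfl | rfl⟩ | ⟨l, hl, rfl⟩
      · rw [v20 hL hn hxu (by omega), hu.w] at h1
        exact absurd h1 (by simp)
      · rw [hA] at h1
        exact absurd h1 (by simp)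
      · rw [(hS t ht).1] at h1
        exact absurd h1 (by simp)
      · rw [(hS t ht).2.1] at h1
        exact absurd h1 (by simp)
      · rw [(hS t ht).2.2] at h1
        exact absurd h1 (by simp)
      · rw [(itm_bits hL hn hx h (hjj j hj)).1]
        rw [(cmp_bits hL hn hxu hu (hjj j hj)).1, eu] at h1
        exact h1
      · rw [(itm_bits hL hn hx h (hjj j hj)).2, ← he j hj]
        rw [(cmp_bits hL hn hxu hu (hjj j hj)).2, eu] at h1
        exact h1
      · rw [v20 hL hn hxu hl] at h1
        rw [v20 hL hn hx hl]
        exact le_flip hx (by omega) h.u l h1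
    · rw [v20 hL hn hxu (by omega), flip_getD_self hx (by omega)]
      have := h.u
      unfold Ub at this
      rw [this]
      rfl
    · rw [v20 hL hn hx (by omega)]
      exact h.u
  · beta_reduce at he hd
    cases h0 : conj ((vec n x).modify i not) (L.getD (L.length - 1 - j) [])
    · have h1 : conj (vec n x) (L.getD (L.length - 1 - j) []) = true := by
        cases h1 : conj (vec n x) (L.getD (L.length - 1 - j) [])
        · rw [h0, h1] at hd
          exact absurd rfl hd
        · rfl
      refine hm (n + 1 + i) (by omega) (main_lt hL hn hx _ _ ?_ (no_A hL hn hxu hu.w hu.aa)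
        (no_start hL hn hxu hu.w hu.y) hj ?_ ?_)
      · rw [v20 hL hn hxu (by omega)]
        exact hu.w
      · intro i' hi' o ho h2
        simp only [dbl, List.mem_cons, List.not_mem_nil, or_false] at ho
        rcases ho with rfl | rfl
        · rw [(itm_bits hL hn hx h (hjj _ (by omega))).1]
          rw [(cmp_bits hL hn hxu hu (hjj _ (by omega))).1, eu] at h2
          exact h2
        · rw [(itm_bits hL hn hx h (hjj _ (by omega))).2, ← he _ hi']
          rw [(cmp_bits hL hn hxu hu (hjj _ (by omega))).2, eu] at h2
          exact h2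
      · simp only [dbl, List.map_cons, List.map_nil, Helper80K4.mv, List.length_cons,
          List.length_nil]
        rw [(itm_bits hL hn hx h (hjj j hj)).1, (itm_bits hL hn hx h (hjj j hj)).2,
          (cmp_bits hL hn hxu hu (hjj j hj)).1, (cmp_bits hL hn hxu hu (hjj j hj)).2, eu, h0, h1]
        norm_num
    · have h1 : conj (vec n x) (L.getD (L.length - 1 - j) []) = false := by
        cases h1 : conj (vec n x) (L.getD (L.length - 1 - j) [])
        · rfl
        · rw [h0, h1] at hd
          exact absurd rfl hd
      refine hm (2 * n + 1 + i) (by omega) (main_lt hL hn hx _ _ ?_ (no_A hL hn hxv hv.w hv.aa)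
        (no_start hL hn hxv hv.w hv.y) hj ?_ ?_)
      · rw [v20 hL hn hxv (by omega)]
        exact hv.w
      · intro i' hi' o ho h2
        simp only [dbl, List.mem_cons, List.not_mem_nil, or_false] at ho
        rcases ho with rfl | rfl
        · rw [(itm_bits hL hn hx h (hjj _ (by omega))).1, he _ hi']
          rw [(cmp_bits hL hn hxv hv (hjj _ (by omega))).1, ev] at h2
          exact h2
        · rw [(itm_bits hL hn hx h (hjj _ (by omega))).2]
          rw [(cmp_bits hL hn hxv hv (hjj _ (by omega))).2, ev] at h2
          exact h2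
      · simp only [dbl, List.map_cons, List.map_nil, Helper80K4.mv, List.length_cons,
          List.length_nil]
        rw [(itm_bits hL hn hx h (hjj j hj)).1, (itm_bits hL hn hx h (hjj j hj)).2,
          (cmp_bits hL hn hxv hv (hjj j hj)).1, (cmp_bits hL hn hxv hv (hjj j hj)).2, ev, h0, h1]
        norm_num

/-- A complete local minimum gives a local minimum of the map. -/
theorem cmp_min (hm : ∀ k < 3 * n + 2, ¬ Btr n L (x.modify k not) x) (h : Cmp n x) :
    IsLocalMin n (ConjMap.eval ⟨n, L⟩) (vec n x) := by
  refine ⟨vec_length, fun i hi => ?_⟩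
  by_contra hcon
  rw [cost_conj, cost_conj] at hcon
  obtain ⟨j, hj, he, h0, h1⟩ := lex_of_lt (m := L.length)
    (f := fun j => conj ((vec n x).modify i not) (L.getD (L.length - 1 - j) []))
    (g := fun j => conj (vec n x) (L.getD (L.length - 1 - j) [])) (by omega)
  beta_reduce at he h0 h1
  have hjj : ∀ j < L.length, L.length - 1 - j < L.length := fun j hj => by omega
  by_cases hu : Ub n x i
  · obtain ⟨ht, et⟩ := (cmp_itm hx h hi).1 hu
    have hxt : (x.modify (2 * n + 1 + i) not).length = 3 * n + 2 := by simpa using hx
    refine hm (2 * n + 1 + i) (by omega) (main_lt hL hn hx _ _ ?_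
      (no_A hL hn hxt ht.w (Or.inl ht.k)) (no_start hL hn hxt ht.w ht.y) hj ?_ ?_)
    · rw [v20 hL hn hxt (by omega)]
      exact ht.w
    · intro i' hi' o ho h2
      simp only [dbl, List.mem_cons, List.not_mem_nil, or_false] at ho
      rcases ho with rfl | rfl
      · rw [(cmp_bits hL hn hx h (hjj _ (by omega))).1, ← he _ hi']
        rw [(itm_bits hL hn hxt ht (hjj _ (by omega))).1, et] at h2
        exact h2
      · rw [(cmp_bits hL hn hx h (hjj _ (by omega))).2]
        rw [(itm_bits hL hn hxt ht (hjj _ (by omega))).2, et] at h2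
        exact h2
    · simp only [dbl, List.map_cons, List.map_nil, Helper80K4.mv, List.length_cons,
        List.length_nil]
      rw [(cmp_bits hL hn hx h (hjj j hj)).1, (cmp_bits hL hn hx h (hjj j hj)).2,
        (itm_bits hL hn hxt ht (hjj j hj)).1, (itm_bits hL hn hxt ht (hjj j hj)).2, et, h0, h1]
      norm_num
  · obtain ⟨ht, et⟩ := (cmp_itm hx h hi).2 hu
    have hxt : (x.modify (n + 1 + i) not).length = 3 * n + 2 := by simpa using hx
    have ett : (vec n (x.modify (n + 1 + i) not)).modify i not = vec n x := by
      rw [et]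
      refine ext_getD (by simp) fun l hl => ?_
      have hl' : l < n := by simpa [vec_length] using hl
      rw [getD_modify (by simp [vec_length]; exact hi), getD_modify (by rw [vec_length]; exact hi)]
      split_ifs with hli
      · rw [hli, Bool.not_not]
      · rfl
    refine hm (n + 1 + i) (by omega) (main_lt hL hn hx _ _ ?_
      (no_A hL hn hxt ht.w (Or.inl ht.k)) (no_start hL hn hxt ht.w ht.y) hj ?_ ?_)
    · rw [v20 hL hn hxt (by omega)]
      exact ht.w
    · intro i' hi' o ho h2
      simp only [dbl, List.mem_cons, List.not_mem_nil, or_false] at ho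
      rcases ho with rfl | rfl
      · rw [(cmp_bits hL hn hx h (hjj _ (by omega))).1]
        rw [(itm_bits hL hn hxt ht (hjj _ (by omega))).1, ett] at h2
        exact h2
      · rw [(cmp_bits hL hn hx h (hjj _ (by omega))).2, ← he _ hi']
        rw [(itm_bits hL hn hxt ht (hjj _ (by omega))).2, et] at h2
        exact h2
    · simp only [dbl, List.map_cons, List.map_nil, Helper80K4.mv, List.length_cons,
        List.length_nil]
      rw [(cmp_bits hL hn hx h (hjj j hj)).1, (cmp_bits hL hn hx h (hjj j hj)).2,
        (itm_bits hL hn hxt ht (hjj j hj)).1, (itm_bits hL hn hxt ht (hjj j hj)).2, ett, et, h0,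
        h1]
      norm_num

/-- The local minima of the circuit give local minima of the map. -/
theorem circ_min (h : IsLocalMin (circ n L).inputs (circ n L).eval x) :
    IsLocalMin n (ConjMap.eval ⟨n, L⟩) (vec n x) := by
  have hm : ∀ k < 3 * n + 2, ¬ Btr n L (x.modify k not) x := fun k hk => not_btr h hk
  rcases shape hL hn hx hm with h1 | ⟨i, h1⟩
  · exact cmp_min hL hn hx hm h1
  · exact (itm_not hL hn hx hm h1).elim

end

end Pool.Agent.Helper48.Neg
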