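import Pool.Agent.Helper80K4.Defs

/-!
# Circuit-FLIP for circuits with few NOT gates: definitions
-/

namespace Pool.Agent.Helper48.Neg

open Pool.Agent.NPC Pool.Agent.Helper80K4

/-- The gate is a NOT gate. -/
def isNot : Gate → Bool
  | .not _ => true
  | _ => false

/-- The number of NOT gates of a circuit. -/
def negs (C : Circuit) : ℕ := C.gates.countP isNot

/-- Circuit-FLIP for the circuits with at most `k` NOT gates is solvable in polynomial time. -/
def NegFlip (k : ℕ) : Prop :=
  Solvable (fun C => C.Valid ∧ negs C ≤ k) fun C => IsLocalMin C.inputs C.eval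

end Pool.Agent.Helper48.Neg
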