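import Pool.Agent.Helper48.Neg.Defs
import Pool.Agent.Helper80K5.Easy
import Pool.Agent.Helper80K4.Hard

/-!
# Circuits with at most one NOT gate: the zero vector or a unit vector is a local minimum
-/

namespace Pool.Agent.Helper48.Neg

open Pool.Agent.NPC Pool.Agent.Helper80K4

/-- the value of the node `j` -/
def vl (C : Circuit) (x : List Bool) (j : ℕ) : Bool := (C.nodes x).getD j false

theorem nodes_length (C : Circuit) (x : List Bool) :
    (C.nodes x).length = x.length + C.gates.length := by
  obtain ⟨w, hw, hl⟩ := foldl_prefix C.gates x
  unfold Circuit.nodes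
  rw [hw, List.length_append, hl]

/-- The values of the nodes are monotone, if those of the NOT gates are. -/
theorem vl_mono {C : Circuit} (hC : C.Valid) {x y : List Bool} (hx : x.length = C.inputs)
    (hy : y.length = C.inputs) (h : ∀ i, x.getD i false = true → y.getD i false = true) (b : ℕ)
    (hn : ∀ i a, C.inputs + i < b → C.gates[i]? = some (.not a) →
      vl C x (C.inputs + i) = true → vl C y (C.inputs + i) = true) :
    ∀ j < b, vl C x j = true → vl C y j = true := by
  intro j
  induction j using Nat.strong_induction_on with
  | _ j ih =>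
  intro hjb hj
  by_cases hjn : j < C.inputs
  · unfold vl at hj ⊢
    rw [nodes_getD_lt (by omega)] at hj ⊢
    exact h j hj
  · obtain ⟨i, rfl⟩ : ∃ i, j = C.inputs + i := ⟨j - C.inputs, by omega⟩
    by_cases hi : i < C.gates.length
    · have hig : C.gates[i]? = some C.gates[i] := List.getElem?_eq_getElem hi
      obtain ⟨g, hg⟩ : ∃ g, g = C.gates[i] := ⟨_, rfl⟩
      rw [← hg] at hig
      have h1 := hC.1 i g hig
      cases g with
      | and a b' =>
        have ha := h1 a (by simp [Gate.reads])
        have hb := h1 b' (by simp [Gate.reads])
        unfold vl at hj ⊢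
        rw [nodes_getD_gate hC hx hig] at hj
        rw [nodes_getD_gate hC hy hig]
        simp only [Gate.eval, Bool.and_eq_true] at hj ⊢
        exact ⟨ih a ha (by omega) hj.1, ih b' hb (by omega) hj.2⟩
      | or a b' =>
        have ha := h1 a (by simp [Gate.reads])
        have hb := h1 b' (by simp [Gate.reads])
        unfold vl at hj ⊢
        rw [nodes_getD_gate hC hx hig] at hj
        rw [nodes_getD_gate hC hy hig]
        simp only [Gate.eval, Bool.or_eq_true] at hj ⊢
        rcases hj with hj | hj
        · exact Or.inl (ih a ha (by omega) hj)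
        · exact Or.inr (ih b' hb (by omega) hj)
      | not a => exact hn i a hjb hig hj
    · unfold vl at hj
      rw [List.getD_eq_default _ _ (by rw [nodes_length]; omega)] at hj
      exact absurd hj (by simp)

theorem eval_length (C : Circuit) (x : List Bool) : (C.eval x).length = C.outputs.length := by
  unfold Circuit.eval; simp

theorem eval_getD (C : Circuit) (x : List Bool) {j : ℕ} (hj : j < C.outputs.length) :
    (C.eval x).getD j false = vl C x (C.outputs.getD j 0) := by
  unfold Circuit.eval
  rw [getD_map_lt _ _ hj 0]
  rfl

theorem cost_le_of_vl {C : Circuit} {x y : List Bool}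
    (h : ∀ j, vl C x j = true → vl C y j = true) : cost (C.eval x) ≤ cost (C.eval y) := by
  refine Helper80K5.cost_mono (by rw [eval_length, eval_length]) fun j hj => ?_
  by_cases hjl : j < C.outputs.length
  · rw [eval_getD _ _ hjl] at hj ⊢
    exact h _ hj
  · rw [List.getD_eq_default _ _ (by rw [eval_length]; omega)] at hj
    exact absurd hj (by simp)

theorem vl_mono' {C : Circuit} (hC : C.Valid) {x y : List Bool} (hx : x.length = C.inputs)
    (hy : y.length = C.inputs) (h : ∀ i, x.getD i false = true → y.getD i false = true)
    (hn : ∀ i a, C.gates[i]? = some (.not a) →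
      vl C x (C.inputs + i) = true → vl C y (C.inputs + i) = true) (j : ℕ) :
    vl C x j = true → vl C y j = true :=
  vl_mono hC hx hy h (j + 1) (fun i a _ => hn i a) j (Nat.lt_succ_self j)

/-! ### At most one NOT gate -/

theorem countP_ge_two {β : Type} (p : β → Bool) : ∀ (l : List β) (i j : ℕ) (a b : β), i < j →
    l[i]? = some a → l[j]? = some b → p a = true → p b = true → 2 ≤ l.countP p
  | [], i, j, a, b, _, h, _, _, _ => by simp at h
  | c :: l, 0, j + 1, a, b, _, h1, h2, h3, h4 => by
    simp only [List.getElem?_cons_zero, Option.some.injEq] at h1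
    rw [List.getElem?_cons_succ] at h2
    have h5 : 0 < l.countP p := List.countP_pos_iff.2 ⟨b, List.mem_of_getElem? h2, h4⟩
    rw [List.countP_cons_of_pos (by rw [h1]; exact h3)]
    omega
  | c :: l, i + 1, j + 1, a, b, h, h1, h2, h3, h4 => by
    rw [List.getElem?_cons_succ] at h1 h2
    have := countP_ge_two p l i j a b (by omega) h1 h2 h3 h4
    rw [List.countP_cons]
    omega

theorem not_unique {C : Circuit} (h : negs C ≤ 1) {i j a b : ℕ}
    (hi : C.gates[i]? = some (.not a)) (hj : C.gates[j]? = some (.not b)) : i = j := by
  by_contra hne
  rcases Nat.lt_or_gt_of_ne hne with h1 | h1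
  · have := countP_ge_two isNot C.gates i j _ _ h1 hi hj rfl rfl
    unfold negs at h
    omega
  · have := countP_ge_two isNot C.gates j i _ _ h1 hj hi rfl rfl
    unfold negs at h
    omega

/-- With at most one NOT gate, its value is antitone. -/
theorem not_anti {C : Circuit} (hC : C.Valid) (h1 : negs C ≤ 1) {x y : List Bool}
    (hx : x.length = C.inputs) (hy : y.length = C.inputs)
    (h : ∀ i, x.getD i false = true → y.getD i false = true) {i a : ℕ}
    (hi : C.gates[i]? = some (.not a)) (hv : vl C y (C.inputs + i) = true) :
    vl C x (C.inputs + i) = true := by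
  have ha := hC.1 i _ hi a (by simp [Gate.reads])
  have h2 := vl_mono hC hx hy h (C.inputs + i) (fun j b hj hjb => by
    have := not_unique h1 hi hjb
    omega) a ha
  unfold vl at hv h2 ⊢
  rw [nodes_getD_gate hC hy hi] at hv
  rw [nodes_getD_gate hC hx hi]
  simp only [Gate.eval, Bool.not_eq_true'] at hv ⊢
  by_contra h3
  have h4 := h2 (by simpa using h3)
  rw [hv] at h4
  exact absurd h4 (by simp)

/-- the unit vector with the one at the place `i`; zero for `i ≥ n` -/
def unit (n i : ℕ) : List Bool := (List.range n).map fun j => decide (j = i)

theorem unit_length (n i : ℕ) : (unit n i).length = n := by simp [unit]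

theorem unit_getD {n i j : ℕ} (hj : j < n) : (unit n i).getD j false = decide (j = i) := by
  unfold unit
  rw [getD_map_lt _ _ (by simpa using hj) 0, List.getD_eq_getElem _ _ (by simpa using hj),
    List.getElem_range]

theorem ext_getD {l l' : List Bool} (hl : l.length = l'.length)
    (h : ∀ j < l.length, l.getD j false = l'.getD j false) : l = l' := by
  refine List.ext_getElem hl fun j h1 h2 => ?_
  have := h j h1
  rwa [List.getD_eq_getElem _ _ h1, List.getD_eq_getElem _ _ h2] at this

theorem unit_modify_zero {n i : ℕ} (hi : i < n) : (unit n n).modify i not = unit n i := by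
  refine ext_getD (by simp [unit_length]) fun j hj => ?_
  have hj' : j < n := by simpa [unit_length] using hj
  rw [getD_modify (by rw [unit_length]; exact hi), unit_getD hj', unit_getD hj']
  by_cases h : j = i
  · subst h
    simp
    omega
  · rw [if_neg h]
    simp [h]
    omega

theorem unit_modify_self {n i : ℕ} (hi : i < n) : (unit n i).modify i not = unit n n := by
  refine ext_getD (by simp [unit_length]) fun j hj => ?_
  have hj' : j < n := by simpa [unit_length] using hj
  rw [getD_modify (by rw [unit_length]; exact hi), unit_getD hj', unit_getD hj']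
  by_cases h : j = i
  · subst h
    simp
    omega
  · rw [if_neg h]
    simp [h]
    omega

theorem unit_zero_le {n : ℕ} {y : List Bool} (i : ℕ) (h : (unit n n).getD i false = true) :
    y.getD i false = true := by
  exfalso
  by_cases hi : i < n
  · rw [unit_getD hi] at h
    simp at h
    omega
  · rw [List.getD_eq_default _ _ (by rw [unit_length]; omega)] at h
    exact absurd h (by simp)

/-- A unit vector of smaller cost than the zero vector is a local minimum. -/
theorem unit_min {C : Circuit} (hC : C.Valid) (h1 : negs C ≤ 1) {i : ℕ} (hi : i < C.inputs)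
    (h : cost (C.eval (unit C.inputs i)) < cost (C.eval (unit C.inputs C.inputs))) :
    IsLocalMin C.inputs C.eval (unit C.inputs i) := by
  refine ⟨unit_length _ _, fun j hj => ?_⟩
  by_cases hji : j = i
  · subst hji
    rw [unit_modify_self hj]
    omega
  · refine cost_le_of_vl fun m => vl_mono' hC (unit_length _ _)
      (by simp [unit_length]) ?_ ?_ m
    · intro q hq
      rw [getD_modify (by rw [unit_length]; exact hj)]
      split_ifs with hqj
      · exfalso
        subst hqj
        rw [unit_getD hj] at hq
        simp [hji] at hq
      · exact hq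
    · intro q a hq hv
      exfalso
      have h2 := not_anti hC h1 (unit_length C.inputs C.inputs) (unit_length C.inputs i)
        (fun q hq => unit_zero_le q hq) hq hv
      have h3 : cost (C.eval (unit C.inputs C.inputs)) ≤ cost (C.eval (unit C.inputs i)) := by
        refine cost_le_of_vl fun m => vl_mono' hC (unit_length _ _) (unit_length _ _)
          (fun q hq => unit_zero_le q hq) ?_ m
        intro q' a' hq' _
        have := not_unique h1 hq hq'
        subst this
        exact hv
      omega

/-! ### The algorithm -/

/-- the value of a gate, given by its code -/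
def cg (v : List Bool) (c : ℕ × ℕ × ℕ) : Bool :=
  if c.1 = 0 then v.getD c.2.1 false && v.getD c.2.2 false
  else if c.1 = 1 then v.getD c.2.1 false || v.getD c.2.2 false
  else !(v.getD c.2.1 false)

theorem cg_code (v : List Bool) (g : Gate) : cg v g.code = g.eval v := by
  cases g <;> simp [cg, Gate.code, Gate.eval]

/-- the values of the nodes -/
def crun (cs : List (ℕ × ℕ × ℕ)) (x : List Bool) : List Bool :=
  cs.foldl (fun v c => v ++ [cg v c]) x

theorem crun_codes (C : Circuit) (x : List Bool) : crun (codes C) x = C.nodes x := by
  unfold crun codes Circuit.nodes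
  rw [List.foldl_map]
  simp only [cg_code]

theorem crun_length (cs : List (ℕ × ℕ × ℕ)) (x : List Bool) :
    (crun cs x).length = x.length + cs.length := by
  unfold crun
  induction cs generalizing x with
  | nil => simp
  | cons c cs ih =>
    rw [List.foldl_cons, ih]
    simp
    omega

/-- the value of the map -/
def ceval (c : CData) (x : List Bool) : List Bool :=
  c.2.2.map fun o => (crun c.2.1 x).getD o false

theorem ceval_cdata (C : Circuit) (x : List Bool) : ceval (cdata C) x = C.eval x := by
  unfold ceval cdata Circuit.eval
  simp only [crun_codes]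

theorem cost_eq_index (y : List Bool) : cost y = 2 * index y := by
  induction y with
  | nil => rfl
  | cons b l ih =>
    unfold cost at ih ⊢
    rw [List.length_cons, Finset.sum_range_succ', index]
    have : ∀ j ∈ Finset.range l.length, ((b :: l).getD (j + 1) false).toNat * 2 ^ (j + 1 + 1) =
        2 * ((l.getD j false).toNat * 2 ^ (j + 1)) := by
      intro j _
      rw [List.getD_cons_succ]
      ring
    rw [Finset.sum_congr rfl this, ← Finset.mul_sum, ih, List.getD_cons_zero]
    ring

/-- the unit vectors of smaller cost than zero -/
def cand (c : CData) : List ℕ :=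
  (List.range c.1.length).filter fun i => decide
    (index (ceval c (unit c.1.length i)) < index (ceval c (unit c.1.length c.1.length)))

/-- the solution -/
def solve1 (c : CData) : List Bool := unit c.1.length ((cand c).getD 0 c.1.length)

section poly

variable {α : Type} [TEnc α]

theorem poly_crun {cs : α → List (ℕ × ℕ × ℕ)} {x : α → List Bool} (hc : Poly cs)
    (hx : Poly x) : Poly (fun a => crun (cs a) (x a)) := by
  obtain ⟨p, hp⟩ := hc.sz_le
  obtain ⟨q, hq⟩ := hx.sz_le
  unfold crun
  refine Poly.foldl (F := fun _ v c => v ++ [cg v c]) hc hx ?_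
    (Polynomial.C 4 * (p + q) + Polynomial.C 1) ?_
  · refine Poly.append (by fun_prop) (Poly.cons ?_ (NPC.Poly.const _))
    unfold cg
    exact Poly.ite (by fun_prop) (by fun_prop) (Poly.ite (by fun_prop) (by fun_prop)
      (by fun_prop))
  · intro a k hk
    have h1 := crun_length ((cs a).take k) (x a)
    unfold crun at h1
    refine (sz_listBool_le _).trans ?_
    rw [h1, List.length_take]
    have h2 := hp a
    have h3 := hq a
    have h4 := length_lt_sz (cs a)
    have h5 := length_lt_sz (x a)
    simp only [Polynomial.eval_add, Polynomial.eval_mul, Polynomial.eval_C]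
    omega

theorem poly_ceval {c : α → CData} {x : α → List Bool} (hc : Poly c) (hx : Poly x) :
    Poly (fun a => ceval (c a) (x a)) := by
  unfold ceval
  have h1 := poly_crun (Poly.fst (Poly.snd hc)) hx
  refine NPC.Poly.map (F := fun a o => (crun (c a).2.1 (x a)).getD o false) (by fun_prop) ?_
  exact Poly.getD (h1.comp (by fun_prop)) (by fun_prop) (NPC.Poly.const _)

theorem poly_unit {n i : α → ℕ} (hn : UPoly n) (hi : Poly i) :
    Poly (fun a => unit (n a) (i a)) := by
  unfold unit
  exact NPC.Poly.map (F := fun a j => decide (j = i a)) hn.range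
    (Poly.decide_eq (by fun_prop) (by fun_prop))

end poly

theorem poly_solve1 : Poly solve1 := by
  have hc : Poly cand := by
    unfold cand
    have hn : UPoly (fun p : CData × ℕ => p.1.1.length) := UPoly.length (by fun_prop)
    have hn' := hn.toPoly
    refine Poly.filter (p := fun (c : CData) i => decide
      (index (ceval c (unit c.1.length i)) < index (ceval c (unit c.1.length c.1.length))))
      (UPoly.length (by fun_prop)).range ?_
    exact Poly.decide_lt (Helper80K5.poly_index (poly_ceval (by fun_prop)
      (poly_unit hn (by fun_prop)))) (Helper80K5.poly_index (poly_ceval (by fun_prop)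
      (poly_unit hn hn')))
  unfold solve1
  have hn : UPoly (fun c : CData => c.1.length) := UPoly.length (by fun_prop)
  exact poly_unit hn (Poly.getD hc (NPC.Poly.const _) hn.toPoly)

/-- One NOT gate is easy. -/
theorem easy1 : NegFlip 1 := by
  refine solvable_of_poly toT_cdata poly_solve1 fun C ⟨hC, h1⟩ => ?_
  have hn : (cdata C).1.length = C.inputs := by simp [cdata]
  unfold solve1
  rw [hn]
  by_cases he : cand (cdata C) = []
  · rw [he, List.getD_nil]
    refine ⟨unit_length _ _, fun i hi => ?_⟩
    rw [unit_modify_zero hi]
    by_contra hcon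
    have : i ∈ cand (cdata C) := by
      unfold cand
      rw [hn, List.mem_filter, List.mem_range, decide_eq_true_eq, ceval_cdata, ceval_cdata]
      refine ⟨hi, ?_⟩
      rw [cost_eq_index, cost_eq_index] at hcon
      omega
    rw [he] at this
    simp at this
  · have hl : 0 < (cand (cdata C)).length := List.length_pos_iff.2 he
    have hm : (cand (cdata C)).getD 0 C.inputs ∈ cand (cdata C) := by
      rw [List.getD_eq_getElem _ _ hl]
      exact List.getElem_mem _
    generalize (cand (cdata C)).getD 0 C.inputs = i at hm ⊢
    unfold cand at hm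
    rw [hn, List.mem_filter, List.mem_range, decide_eq_true_eq, ceval_cdata, ceval_cdata] at hm
    refine unit_min hC h1 hm.1 ?_
    rw [cost_eq_index, cost_eq_index]
    omega

theorem NegFlip.mono {k l : ℕ} (hkl : k ≤ l) (h : NegFlip l) : NegFlip k := by
  obtain ⟨f, hf, hf'⟩ := h
  exact ⟨f, hf, fun C hC => hf' C ⟨hC.1, hC.2.trans hkl⟩⟩

theorem negFlip_of_circuitFlip (k : ℕ) (h : CircuitFlip) : NegFlip k := by
  obtain ⟨f, hf, hf'⟩ := h
  exact ⟨f, hf, fun C hC => hf' C hC.1⟩

end Pool.Agent.Helper48.Neg
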