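import Pool.Agent.Helper48.Neg.Easy

/-!
# A circuit with two NOT gates: definition and values

Input bits: `y_t` (`t ≤ n`) at the place `t`, `u_i` and `v_i` (`i < n`) at the places `n + 1 + i`
and `2 n + 1 + i`, and a bit at the place `3 n + 1` which should be zero.
-/

namespace Pool.Agent.Helper48.Neg

open Pool.Agent.NPC Pool.Agent.Helper80K4

/-- the width of the rows -/
def wd (n : ℕ) (L : List Cj) : ℕ := 3 * n + 2 + L.length

/-- the node number `i` of the row `k` -/
def nd (n : ℕ) (L : List Cj) (k i : ℕ) : ℕ := 3 * n + 2 + k * wd n L + i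

/-- a literal in the version `q` -/
def lit (n : ℕ) (L : List Cj) (q : ℕ) (p : ℕ × Bool) : ℕ :=
  if p.2 = true then (if q = 1 then nd n L 5 p.1 else n + 1 + p.1)
  else if q = 2 then nd n L 6 p.1 else 2 * n + 1 + p.1

/-- the node which starts the ANDs of the version `q` -/
def zz (n : ℕ) (L : List Cj) (q : ℕ) : ℕ := if q = 0 then nd n L 16 0 else nd n L 19 0

/-- the literal `r` of the AND number `j` -/
def lr (n : ℕ) (L : List Cj) (q r j : ℕ) : ℕ :=
  if r < (L.getD j []).length then lit n L q ((L.getD j []).getD r (0, true)) else zz n L q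

/-- the gates of the rows -/
def row (n : ℕ) (L : List Cj) (k i : ℕ) : ℕ × ℕ × ℕ :=
  if k = 0 then (0, n + 1 + i, 2 * n + 1 + i)
  else if k = 1 then (1, n + 1 + i, 2 * n + 1 + i)
  else if k = 2 then
    (if i = 0 then (1, 3 * n + 1, 3 * n + 1) else (1, nd n L 2 (i - 1), nd n L 0 (i - 1)))
  else if k = 3 then
    (if i = 0 then (1, 3 * n + 1, 3 * n + 1) else (1, nd n L 3 (i - 1), nd n L 0 (n - i)))
  else if k = 4 then (1, nd n L 2 i, nd n L 3 (n - 1 - i))
  else if k = 5 then (0, n + 1 + i, nd n L 4 i)
  else if k = 6 then (0, 2 * n + 1 + i, nd n L 4 i)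
  else if k = 7 then
    (if i = 0 then (0, nd n L 1 0, nd n L 1 0) else (0, nd n L 7 (i - 1), nd n L 1 i))
  else if k = 8 then
    (if i = 0 then (0, n + 1, n + 1) else (0, nd n L 8 (i - 1), n + 1 + i))
  else if k = 9 then (0, i, if i = 0 then 0 else nd n L 8 (i - 1))
  else if k = 10 then (0, nd n L 9 i, n + 1 + i)
  else if k = 11 then (0, nd n L 10 i, i + 1)
  else if k = 12 then
    (if i = 0 then (1, nd n L 7 (n - 1), nd n L 7 (n - 1))
      else (1, nd n L 12 (i - 1), nd n L 9 (i - 1)))
  else if k = 13 then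
    (if i = 0 then (0, nd n L 7 (n - 1), nd n L 2 n)
      else (1, nd n L 13 (i - 1), nd n L 10 (i - 1)))
  else if k = 14 then
    (if i = 0 then (1, 3 * n + 1, 3 * n + 1) else (1, nd n L 14 (i - 1), nd n L 11 (i - 1)))
  else if k = 15 then (2, nd n L 13 n, 0)
  else if k = 16 then (0, nd n L 15 0, nd n L 12 n)
  else if k = 17 then (1, nd n L 14 n, nd n L 16 0)
  else if k = 18 then (2, nd n L 17 0, 0)
  else if k = 19 then (0, nd n L 13 n, nd n L 18 0)
  else if k = 20 then (0, i, i)
  else if k < 30 then
    (0, if (k - 21) % 3 = 0 then zz n L ((k - 21) / 3) else nd n L (k - 1) i,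
      lr n L ((k - 21) / 3) ((k - 21) % 3) i)
  else if k = 30 then (1, nd n L 23 i, nd n L 29 i)
  else if k = 31 then (1, nd n L 23 i, nd n L 26 i)
  else if k = 32 then (0, nd n L 9 i, nd n L 15 0)
  else if k = 33 then (0, nd n L 10 i, nd n L 18 0)
  else if k = 34 then (0, nd n L 11 i, nd n L 11 i)
  else (0, nd n L 15 0, nd n L 18 0)

/-- the lengths of the rows -/
def bd (n : ℕ) (L : List Cj) (k : ℕ) : ℕ :=
  if k < 20 then
    (if k = 2 ∨ k = 3 ∨ k = 12 ∨ k = 13 ∨ k = 14 then n + 1 else if k < 15 then n else 1)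
  else if k = 20 then 3 * n + 2
  else if k < 32 then L.length
  else if k < 35 then n else 1

/-- the gates; the rows are filled up with gates which are not used -/
def gc (n : ℕ) (L : List Cj) (k i : ℕ) : ℕ × ℕ × ℕ :=
  if i < bd n L k then row n L k i else (0, 0, 0)

/-- the gate with the given code -/
def gof (c : ℕ × ℕ × ℕ) : Gate :=
  if c.1 = 0 then .and c.2.1 c.2.2 else if c.1 = 1 then .or c.2.1 c.2.2 else .not c.2.1

/-- the codes of the gates -/
def gcs (n : ℕ) (L : List Cj) : List (ℕ × ℕ × ℕ) :=
  (List.range (36 * wd n L)).map fun g => gc n L (g / wd n L) (g % wd n L)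

/-- the nodes of the output bits, the most significant one first -/
def alls (n : ℕ) (L : List Cj) : List ℕ :=
  [nd n L 20 (3 * n + 1), nd n L 35 0] ++
    ((List.range n).flatMap (fun t => [nd n L 32 t, nd n L 33 t, nd n L 34 t]) ++
    ((List.range L.length).flatMap (fun j =>
      [nd n L 31 (L.length - 1 - j), nd n L 30 (L.length - 1 - j)]) ++
    (List.range (3 * n + 2)).map fun i => nd n L 20 i))

/-- the circuit -/
def circ (n : ℕ) (L : List Cj) : Circuit :=
  ⟨3 * n + 2, (gcs n L).map gof, (alls n L).reverse⟩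

/-- the value of a gate for values of the nodes given by a function -/
def cgf (V : ℕ → Bool) (c : ℕ × ℕ × ℕ) : Bool :=
  if c.1 = 0 then V c.2.1 && V c.2.2 else if c.1 = 1 then V c.2.1 || V c.2.2 else !(V c.2.1)

theorem gof_eval (v : List Bool) (c : ℕ × ℕ × ℕ) :
    (gof c).eval v = cgf (fun a => v.getD a false) c := by
  unfold gof cgf
  split_ifs <;> rfl

section

variable {n : ℕ} {L : List Cj}

theorem wd_pos : 0 < wd n L := by unfold wd; omega

theorem bd_le (k : ℕ) : bd n L k ≤ wd n L := by
  unfold bd wd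
  split_ifs <;> omega

theorem circ_gate {k i : ℕ} (hk : k < 36) (hi : i < wd n L) :
    (circ n L).gates[k * wd n L + i]? = some (gof (gc n L k i)) := by
  have h1 : k * wd n L + i < 36 * wd n L := by
    have := Nat.mul_le_mul_right (wd n L) (show k + 1 ≤ 36 by omega)
    rw [Nat.succ_mul] at this
    omega
  unfold circ gcs
  simp only [List.map_map]
  rw [List.getElem?_map, List.getElem?_range h1]
  simp only [Option.map_some, Function.comp_apply, Option.some.injEq]
  rw [Nat.mul_add_mod', Nat.mod_eq_of_lt hi, add_comm (k * wd n L) i,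
    Nat.add_mul_div_right _ _ wd_pos, Nat.div_eq_of_lt hi, zero_add]

theorem circ_gates_length : (circ n L).gates.length = 36 * wd n L := by
  unfold circ gcs
  simp

theorem circ_gate_exists {g : ℕ} {G : Gate} (h : (circ n L).gates[g]? = some G) :
    ∃ k i, k < 36 ∧ i < wd n L ∧ g = k * wd n L + i ∧ G = gof (gc n L k i) := by
  have hg : g < 36 * wd n L := by
    have := (List.getElem?_eq_some_iff.1 h).1
    rwa [circ_gates_length] at this
  refine ⟨g / wd n L, g % wd n L, (Nat.div_lt_iff_lt_mul wd_pos).2 hg, Nat.mod_lt _ wd_pos,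
    (Nat.div_add_mod' g _).symm, ?_⟩
  have h2 := circ_gate (n := n) (L := L) ((Nat.div_lt_iff_lt_mul wd_pos).2 hg)
    (Nat.mod_lt g wd_pos)
  rw [Nat.div_add_mod', h] at h2
  exact Option.some.inj h2

/-- the data are valid -/
def LOk (n : ℕ) (L : List Cj) : Prop := ∀ T ∈ L, T.length ≤ 3 ∧ ∀ p ∈ T, p.1 < n

theorem lr_lt (hL : LOk n L) (q r j : ℕ) : lr n L q r j < nd n L 20 0 := by
  have hW : wd n L = 3 * n + 2 + L.length := rfl
  unfold lr
  split_ifs with h
  · have hp : ((L.getD j []).getD r (0, true)).1 < n := by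
      by_cases hj : j < L.length
      · have hm : L.getD j [] ∈ L := by
          rw [List.getD_eq_getElem _ _ hj]
          exact List.getElem_mem _
        refine (hL _ hm).2 _ ?_
        rw [List.getD_eq_getElem _ _ h]
        exact List.getElem_mem _
      · rw [List.getD_eq_default _ _ (by omega)] at h
        simp at h
    generalize (L.getD j []).getD r (0, true) = p at hp ⊢
    unfold lit nd
    split_ifs <;> omega
  · unfold zz nd
    split_ifs <;> omega

theorem row_lt (hL : LOk n L) (hn : 0 < n) {k i : ℕ} (hk : k < 36) (hi : i < bd n L k) :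
    (row n L k i).2.1 < nd n L k i ∧ (row n L k i).2.2 < nd n L k i := by
  have hW : wd n L = 3 * n + 2 + L.length := rfl
  have hz0 : zz n L ((k - 21) / 3) < nd n L 20 0 := by
    unfold zz nd
    split_ifs <;> omega
  have hlr := lr_lt hL ((k - 21) / 3) ((k - 21) % 3) i
  by_cases hc : 21 ≤ k ∧ k < 30
  · obtain ⟨h1, h2⟩ := hc
    have hnd : nd n L 20 0 ≤ nd n L (k - 1) 0 := by
      unfold nd
      have := Nat.mul_le_mul_right (wd n L) (show 20 ≤ k - 1 by omega)
      omega
    have hnd2 : nd n L (k - 1) i < nd n L k i := by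
      unfold nd
      obtain ⟨k', rfl⟩ : ∃ k', k = k' + 1 := ⟨k - 1, by omega⟩
      have h3 : (k' + 1) * wd n L = k' * wd n L + wd n L := by ring
      rw [Nat.add_sub_cancel, h3]
      omega
    have hnd3 : nd n L (k - 1) 0 ≤ nd n L (k - 1) i := by unfold nd; omega
    unfold row
    rw [if_neg (by omega), if_neg (by omega), if_neg (by omega), if_neg (by omega),
      if_neg (by omega), if_neg (by omega), if_neg (by omega), if_neg (by omega),
      if_neg (by omega), if_neg (by omega), if_neg (by omega), if_neg (by omega),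
      if_neg (by omega), if_neg (by omega), if_neg (by omega), if_neg (by omega),
      if_neg (by omega), if_neg (by omega), if_neg (by omega), if_neg (by omega),
      if_neg (by omega), if_pos (by omega)]
    refine ⟨?_, ?_⟩
    · simp only
      split_ifs <;> omega
    · simp only
      omega
  · clear hz0 hlr
    rcases Nat.lt_or_ge k 21 with h | h
    · interval_cases k <;> simp [bd] at hi <;> simp only [row, nd] <;> norm_num <;>
        (try split_ifs) <;> (try dsimp only) <;> (try omega)
    · have h30 : 30 ≤ k := by omega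
      interval_cases k <;> simp [bd] at hi <;> simp only [row, nd] <;> norm_num <;>
        (try split_ifs) <;> (try dsimp only) <;> (try omega)

end

end Pool.Agent.Helper48.Neg
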