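import Pool.Agent.Helper48.Neg.Anal3

/-!
# Circuit-FLIP reduces to circuits with two NOT gates
-/

namespace Pool.Agent.Helper48.Neg

open Pool.Agent.NPC Pool.Agent.Helper80K4

/-- the code of a gate -/
def nrm (c : ℕ × ℕ × ℕ) : ℕ × ℕ × ℕ :=
  if c.1 = 0 then (0, c.2.1, c.2.2) else if c.1 = 1 then (1, c.2.1, c.2.2) else (2, c.2.1, 0)

theorem gof_code (c : ℕ × ℕ × ℕ) : (gof c).code = nrm c := by
  unfold gof nrm
  split_ifs <;> rfl

theorem toT_circ (n : ℕ) (L : List Cj) : toT (circ n L) =
    toT (List.replicate (3 * n + 2) (), (gcs n L).map nrm, (alls n L).reverse) := by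
  rw [toT_cdata]
  unfold cdata codes circ
  simp only [List.map_map]
  have : (Gate.code ∘ gof) = nrm := funext gof_code
  rw [this]

section poly

variable {α : Type} [TEnc α]

@[fun_prop] theorem poly_wd {n : α → ℕ} {L : α → List Cj} (hn : Poly n) (hL : Poly L) :
    Poly (fun a => wd (n a) (L a)) := by
  unfold wd
  fun_prop

@[fun_prop] theorem poly_nd {n k i : α → ℕ} {L : α → List Cj} (hn : Poly n) (hL : Poly L)
    (hk : Poly k) (hi : Poly i) : Poly (fun a => nd (n a) (L a) (k a) (i a)) := by
  unfold nd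
  exact Poly.add (Poly.add (by fun_prop) (Poly.mul hk (poly_wd hn hL))) hi

@[fun_prop] theorem poly_zz {n q : α → ℕ} {L : α → List Cj} (hn : Poly n) (hL : Poly L)
    (hq : Poly q) : Poly (fun a => zz (n a) (L a) (q a)) := by
  unfold zz
  exact Poly.ite (by fun_prop) (poly_nd hn hL (NPC.Poly.const _) (NPC.Poly.const _))
    (poly_nd hn hL (NPC.Poly.const _) (NPC.Poly.const _))

theorem poly_lit {n q : α → ℕ} {L : α → List Cj} {p : α → ℕ × Bool} (hn : Poly n) (hL : Poly L)
    (hq : Poly q) (hp : Poly p) : Poly (fun a => lit (n a) (L a) (q a) (p a)) := by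
  unfold lit
  have hp1 : Poly (fun a => (p a).1) := Poly.fst hp
  exact Poly.ite (Poly.decide_bool (Poly.snd hp))
    (Poly.ite (by fun_prop) (poly_nd hn hL (NPC.Poly.const _) hp1) (by fun_prop))
    (Poly.ite (by fun_prop) (poly_nd hn hL (NPC.Poly.const _) hp1) (by fun_prop))

@[fun_prop] theorem poly_lr {n q r j : α → ℕ} {L : α → List Cj} (hn : Poly n) (hL : Poly L)
    (hq : Poly q) (hr : Poly r) (hj : Poly j) :
    Poly (fun a => lr (n a) (L a) (q a) (r a) (j a)) := by
  unfold lr
  have hT : Poly (fun a => (L a).getD (j a) []) := Poly.getD hL hj (NPC.Poly.const _)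
  exact Poly.ite (Poly.decide_lt hr (Poly.length hT))
    (poly_lit hn hL hq (Poly.getD hT hr (NPC.Poly.const _))) (poly_zz hn hL hq)

theorem poly_row {n k i : α → ℕ} {L : α → List Cj} (hn : Poly n) (hL : Poly L)
    (hk : Poly k) (hi : Poly i) : Poly (fun a => row (n a) (L a) (k a) (i a)) := by
  have hq : Poly (fun a => (k a - 21) / 3) := Poly.div (by fun_prop) (NPC.Poly.const _)
  have hr : Poly (fun a => (k a - 21) % 3) := Poly.mod (by fun_prop) (NPC.Poly.const _)
  unfold row
  refine Poly.ite (by fun_prop) (by fun_prop) ?_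
  refine Poly.ite (by fun_prop) (by fun_prop) ?_
  refine Poly.ite (by fun_prop) (Poly.ite (by fun_prop) (by fun_prop) (by fun_prop)) ?_
  refine Poly.ite (by fun_prop) (Poly.ite (by fun_prop) (by fun_prop) (by fun_prop)) ?_
  refine Poly.ite (by fun_prop) (by fun_prop) ?_
  refine Poly.ite (by fun_prop) (by fun_prop) ?_
  refine Poly.ite (by fun_prop) (by fun_prop) ?_
  refine Poly.ite (by fun_prop) (Poly.ite (by fun_prop) (by fun_prop) (by fun_prop)) ?_
  refine Poly.ite (by fun_prop) (Poly.ite (by fun_prop) (by fun_prop) (by fun_prop)) ?_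
  refine Poly.ite (by fun_prop) (Poly.pair (NPC.Poly.const _) (Poly.pair hi
    (Poly.ite (by fun_prop) (by fun_prop) (by fun_prop)))) ?_
  refine Poly.ite (by fun_prop) (by fun_prop) ?_
  refine Poly.ite (by fun_prop) (by fun_prop) ?_
  refine Poly.ite (by fun_prop) (Poly.ite (by fun_prop) (by fun_prop) (by fun_prop)) ?_
  refine Poly.ite (by fun_prop) (Poly.ite (by fun_prop) (by fun_prop) (by fun_prop)) ?_
  refine Poly.ite (by fun_prop) (Poly.ite (by fun_prop) (by fun_prop) (by fun_prop)) ?_
  refine Poly.ite (by fun_prop) (by fun_prop) ?_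
  refine Poly.ite (by fun_prop) (by fun_prop) ?_
  refine Poly.ite (by fun_prop) (by fun_prop) ?_
  refine Poly.ite (by fun_prop) (by fun_prop) ?_
  refine Poly.ite (by fun_prop) (by fun_prop) ?_
  refine Poly.ite (by fun_prop) (by fun_prop) ?_
  refine Poly.ite (Poly.decide_lt hk (NPC.Poly.const _)) (Poly.pair (NPC.Poly.const _)
    (Poly.pair (Poly.ite (Poly.decide_eq hr (NPC.Poly.const _)) (poly_zz hn hL hq)
      (poly_nd hn hL (by fun_prop) hi)) (poly_lr hn hL hq hr hi))) ?_
  refine Poly.ite (by fun_prop) (by fun_prop) ?_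
  refine Poly.ite (by fun_prop) (by fun_prop) ?_
  refine Poly.ite (by fun_prop) (by fun_prop) ?_
  refine Poly.ite (by fun_prop) (by fun_prop) ?_
  refine Poly.ite (by fun_prop) (by fun_prop) ?_
  fun_prop

theorem poly_bd {n k : α → ℕ} {L : α → List Cj} (hn : Poly n) (hL : Poly L)
    (hk : Poly k) : Poly (fun a => bd (n a) (L a) (k a)) := by
  unfold bd
  refine Poly.ite (Poly.decide_lt hk (NPC.Poly.const _)) (Poly.ite ?_ (by fun_prop)
    (Poly.ite (Poly.decide_lt hk (NPC.Poly.const _)) hn (NPC.Poly.const _))) ?_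
  · exact Poly.decide_or (by fun_prop) (Poly.decide_or (by fun_prop) (Poly.decide_or
      (by fun_prop) (Poly.decide_or (by fun_prop) (by fun_prop))))
  · refine Poly.ite (by fun_prop) (by fun_prop) ?_
    exact Poly.ite (Poly.decide_lt hk (NPC.Poly.const _)) (Poly.length hL)
      (Poly.ite (Poly.decide_lt hk (NPC.Poly.const _)) hn (NPC.Poly.const _))

theorem poly_gc {n k i : α → ℕ} {L : α → List Cj} (hn : Poly n) (hL : Poly L)
    (hk : Poly k) (hi : Poly i) : Poly (fun a => gc (n a) (L a) (k a) (i a)) := by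
  unfold gc
  exact Poly.ite (Poly.decide_lt hi (poly_bd hn hL hk)) (poly_row hn hL hk hi)
    (NPC.Poly.const _)

theorem poly_nrm {c : α → ℕ × ℕ × ℕ} (hc : Poly c) : Poly (fun a => nrm (c a)) := by
  unfold nrm
  exact Poly.ite (by fun_prop) (by fun_prop) (Poly.ite (by fun_prop) (by fun_prop) (by fun_prop))

theorem poly_circ {n : α → ℕ} {L : α → List Cj} (hn : UPoly n) (hL : Poly L) :
    Poly (fun a => circ (n a) (L a)) := by
  have hn0 := hn.toPoly
  have hN : UPoly (fun a => 3 * n a + 2) := ((UPoly.const 3).mul hn).add (UPoly.const 2)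
  have hm : UPoly (fun a => (L a).length) := UPoly.length hL
  have hW : UPoly (fun a => 36 * wd (n a) (L a)) := (UPoly.const 36).mul (hN.add hm)
  have h1 : Poly (fun a => (gcs (n a) (L a)).map nrm) := by
    unfold gcs
    refine NPC.Poly.map (F := fun _ c => nrm c) ?_ (poly_nrm (by fun_prop))
    refine NPC.Poly.map (F := fun a g => gc (n a) (L a) (g / wd (n a) (L a))
      (g % wd (n a) (L a))) hW.range ?_
    have hw : Poly (fun p : α × ℕ => wd (n p.1) (L p.1)) := poly_wd (by fun_prop) (by fun_prop)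
    exact poly_gc (by fun_prop) (by fun_prop) (Poly.div (by fun_prop) hw)
      (Poly.mod (by fun_prop) hw)
  have h2 : Poly (fun a => (alls (n a) (L a)).reverse) := by
    unfold alls
    refine Poly.reverse (Poly.append (by fun_prop) (Poly.append ?_ (Poly.append ?_ ?_)))
    · refine Poly.flatMap (F := fun a t => [nd (n a) (L a) 32 t, nd (n a) (L a) 33 t,
        nd (n a) (L a) 34 t]) hn.range ?_
      fun_prop
    · refine Poly.flatMap (F := fun a j => [nd (n a) (L a) 31 ((L a).length - 1 - j),
        nd (n a) (L a) 30 ((L a).length - 1 - j)]) hm.range ?_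
      fun_prop
    · refine NPC.Poly.map (F := fun a i => nd (n a) (L a) 20 i) hN.range ?_
      fun_prop
  refine Poly.of_toT ((Poly.toT' (Poly.pair hN (Poly.pair h1 h2))).congr fun a => ?_)
  rw [toT_circ]

end poly

/-- the circuit, or an empty one if there is no input bit -/
def red2 (c : List Unit × List Cj) : Circuit :=
  if c.1.length = 0 then ⟨0, [], []⟩ else circ c.1.length c.2

theorem poly_red2 : Poly red2 := by
  unfold red2
  exact Poly.ite (by fun_prop) (NPC.Poly.const _)
    (poly_circ (UPoly.length (by fun_prop)) (by fun_prop))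

theorem poly_vec : Poly (fun p : (List Unit × List Cj) × List Bool => vec p.1.1.length p.2) := by
  unfold vec
  refine NPC.Poly.map (F := fun (p : (List Unit × List Cj) × List Bool) i =>
    p.2.getD (p.1.1.length + 1 + i) false) (UPoly.length (by fun_prop)).range ?_
  fun_prop

/-- Two NOT gates are enough. -/
theorem conj_of_neg (h : NegFlip 2) : ConjFlip 3 := by
  refine Solvable.of_red (γ := List Unit × List Cj) (data := fun M : ConjMap =>
    (List.replicate M.inputs (), M.outs)) (fun _ => rfl) h (red := red2)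
    (post := fun c y => vec c.1.length y) poly_red2 poly_vec ?_ ?_
  · rintro ⟨n, L⟩ hM
    unfold red2
    simp only [List.length_replicate]
    split_ifs with hn
    · refine ⟨⟨?_, ?_⟩, ?_⟩
      · intro i g hg
        simp at hg
      · intro o ho
        simp at ho
      · simp [negs]
    · exact ⟨circ_valid hM (by omega), circ_negs⟩
  · rintro ⟨n, L⟩ hM y hy
    unfold red2 at hy
    simp only [List.length_replicate] at hy ⊢
    by_cases hn : n = 0
    · subst hn
      exact ⟨by simp [vec_length], fun i hi => absurd hi (by simp)⟩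
    · rw [if_neg hn] at hy
      exact circ_min hM (by omega) hy.1 hy

/-- The negation threshold. -/
theorem main : (∀ k ≤ 1, NegFlip k) ∧ ∀ k, 2 ≤ k → (NegFlip k ↔ CircuitFlip) :=
  ⟨fun _ hk => easy1.mono hk, fun k hk =>
    ⟨fun h => hard (conj_of_neg (h.mono hk)), negFlip_of_circuitFlip k⟩⟩

end Pool.Agent.Helper48.Neg
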