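import Pool.Agent.Helper48.Neg.Gadget

/-!
# A circuit with two NOT gates: validity and the values of the nodes
-/

namespace Pool.Agent.Helper48.Neg

open Pool.Agent.NPC Pool.Agent.Helper80K4

variable {n : ℕ} {L : List Cj}

theorem nd_lt {k i : ℕ} (hk : k < 36) (hi : i < wd n L) :
    3 * n + 2 ≤ nd n L k i ∧ nd n L k i < 3 * n + 2 + 36 * wd n L := by
  have := Nat.mul_le_mul_right (wd n L) (show k + 1 ≤ 36 by omega)
  rw [Nat.succ_mul] at this
  unfold nd
  omega

theorem circ_valid (hL : LOk n L) (hn : 0 < n) : (circ n L).Valid := by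
  have hW : wd n L = 3 * n + 2 + L.length := rfl
  constructor
  · intro g G hG a ha
    obtain ⟨k, i, hk, hi, rfl, rfl⟩ := circ_gate_exists hG
    have e : (circ n L).inputs + (k * wd n L + i) = nd n L k i := by
      unfold circ nd
      simp only
      omega
    rw [e]
    have h1 : (gc n L k i).2.1 < nd n L k i ∧ (gc n L k i).2.2 < nd n L k i := by
      unfold gc
      split_ifs with h
      · exact row_lt hL hn hk h
      · have := (nd_lt (n := n) (L := L) hk hi).1
        simp only
        omega
    have h2 : a = (gc n L k i).2.1 ∨ a = (gc n L k i).2.2 := by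
      unfold gof at ha
      split_ifs at ha
      · simpa [Gate.reads] using ha
      · simpa [Gate.reads] using ha
      · left
        simpa [Gate.reads] using ha
    rcases h2 with rfl | rfl
    · exact h1.1
    · exact h1.2
  · intro o ho
    rw [circ_gates_length]
    change 3 * n + 2 ≤ o ∧ o < 3 * n + 2 + _
    have ho' : o ∈ alls n L := List.mem_reverse.1 ho
    unfold alls at ho'
    simp only [List.mem_append, List.mem_cons, List.not_mem_nil, or_false, List.mem_flatMap,
      List.mem_range, List.mem_map] at ho'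
    rcases ho' with (rfl | rfl) | ⟨t, ht, rfl | rfl | rfl⟩ | ⟨j, hj, rfl | rfl⟩ | ⟨i, hi, rfl⟩
    all_goals exact nd_lt (by norm_num) (by omega)

theorem length_filter_le_two {K a b : ℕ} {p : ℕ → Bool}
    (h : ∀ g < K, p g = true → g = a ∨ g = b) :
    ((List.range K).filter p).length ≤ 2 := by
  classical
  have h1 : ((List.range K).filter p).Nodup := List.Nodup.filter _ List.nodup_range
  rw [← List.toFinset_card_of_nodup h1]
  have h2 : ((List.range K).filter p).toFinset ⊆ {a, b} := by
    intro g hg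
    rw [List.mem_toFinset, List.mem_filter, List.mem_range] at hg
    simpa using h g hg.1 hg.2
  exact (Finset.card_le_card h2).trans Finset.card_le_two

theorem row_fst (i : ℕ) : ∀ k < 36, k ≠ 15 → k ≠ 18 →
    (row n L k i).1 = 0 ∨ (row n L k i).1 = 1 := by
  intro k hk e1 e2
  interval_cases k <;> simp only [row, ne_eq, not_true_eq_false] at e1 e2 ⊢ <;> norm_num <;>
    (try split_ifs) <;> simp

/-- The NOT gates. -/
theorem not_place {k i : ℕ} (hk : k < 36) (h : isNot (gof (gc n L k i)) = true) :
    (k = 15 ∧ i = 0) ∨ (k = 18 ∧ i = 0) := by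
  have h1 : (gc n L k i).1 ≠ 0 ∧ (gc n L k i).1 ≠ 1 := by
    unfold gof at h
    split_ifs at h with h1 h2
    · exact absurd h (by simp [isNot])
    · exact absurd h (by simp [isNot])
    · exact ⟨h1, h2⟩
  unfold gc at h1
  split_ifs at h1 with h2
  · have h3 : (row n L k i).1 = 0 ∨ (row n L k i).1 = 1 ∨ k = 15 ∨ k = 18 := by
      by_cases e1 : k = 15
      · exact Or.inr (Or.inr (Or.inl e1))
      by_cases e2 : k = 18
      · exact Or.inr (Or.inr (Or.inr e2))
      rcases row_fst (n := n) (L := L) i k hk e1 e2 with h | h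
      · exact Or.inl h
      · exact Or.inr (Or.inl h)
    rcases h3 with h3 | h3 | h3 | h3
    · exact absurd h3 h1.1
    · exact absurd h3 h1.2
    · subst h3
      simp [bd] at h2
      exact Or.inl ⟨rfl, h2⟩
    · subst h3
      simp [bd] at h2
      exact Or.inr ⟨rfl, h2⟩
  · simp at h1

theorem circ_negs : negs (circ n L) ≤ 2 := by
  unfold negs circ gcs
  simp only [List.map_map]
  rw [List.countP_map, List.countP_eq_length_filter]
  refine length_filter_le_two (a := 15 * wd n L) (b := 18 * wd n L) fun g hgK hg => ?_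
  simp only [Function.comp_apply] at hg
  have hk : g / wd n L < 36 := (Nat.div_lt_iff_lt_mul wd_pos).2 hgK
  have hd := Nat.div_add_mod' g (wd n L)
  rcases not_place hk hg with ⟨h1, h2⟩ | ⟨h1, h2⟩
  · rw [h1, h2] at hd
    left
    omega
  · rw [h1, h2] at hd
    right
    omega

/-! ### The values of the nodes -/

/-- the value of a node -/
def V (n : ℕ) (L : List Cj) (x : List Bool) (a : ℕ) : Bool := vl (circ n L) x a

section

variable {x : List Bool}

theorem V_inp (hx : x.length = 3 * n + 2) {a : ℕ} (ha : a < 3 * n + 2) :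
    V n L x a = x.getD a false := nodes_getD_lt (by omega)

theorem V_gate (hL : LOk n L) (hn : 0 < n) (hx : x.length = 3 * n + 2) {k i : ℕ} (hk : k < 36)
    (hi : i < bd n L k) : V n L x (nd n L k i) = cgf (V n L x) (row n L k i) := by
  have hi' : i < wd n L := lt_of_lt_of_le hi (bd_le k)
  have h1 := nodes_getD_gate (circ_valid hL hn) (x := x) hx (circ_gate hk hi')
  have e : nd n L k i = (circ n L).inputs + (k * wd n L + i) := by
    unfold circ nd
    simp only
    omega
  have e2 : gc n L k i = row n L k i := if_pos hi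
  unfold V vl
  rw [e, h1, gof_eval, e2]

/-- bits of the input -/
def Yb (x : List Bool) (t : ℕ) : Prop := x.getD t false = true
/-- bits of the input -/
def Ub (n : ℕ) (x : List Bool) (i : ℕ) : Prop := x.getD (n + 1 + i) false = true
/-- bits of the input -/
def Vb (n : ℕ) (x : List Bool) (i : ℕ) : Prop := x.getD (2 * n + 1 + i) false = true
/-- the set `S_t` -/
def SS (n : ℕ) (x : List Bool) (t : ℕ) : Prop := Yb x t ∧ ∀ l < t, Ub n x l
/-- the set `T_t` -/
def TS (n : ℕ) (x : List Bool) (t : ℕ) : Prop := SS n x t ∧ Ub n x t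
/-- the set `R_t` -/
def RS (n : ℕ) (x : List Bool) (t : ℕ) : Prop := TS n x t ∧ Yb x (t + 1)
/-- complete -/
def KK (n : ℕ) (x : List Bool) : Prop := ∀ i < n, Ub n x i ∨ Vb n x i
/-- some pair is full -/
def FF (n : ℕ) (x : List Bool) : Prop := ∃ i < n, Ub n x i ∧ Vb n x i
/-- the first function -/
def aa (n : ℕ) (x : List Bool) : Prop := KK n x ∨ ∃ t < n, SS n x t
/-- the second function -/
def gg (n : ℕ) (x : List Bool) : Prop := (KK n x ∧ FF n x) ∨ ∃ t < n, TS n x t
/-- the third function -/
def bb (n : ℕ) (x : List Bool) : Prop := ∃ t < n, RS n x t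

variable (hL : LOk n L) (hn : 0 < n) (hx : x.length = 3 * n + 2)
  (hw : x.getD (3 * n + 1) false = false)

include hL hn hx

theorem v0 {i : ℕ} (hi : i < n) : V n L x (nd n L 0 i) = true ↔ Ub n x i ∧ Vb n x i := by
  have h := V_gate hL hn hx (k := 0) (i := i) (by norm_num) (by simpa [bd] using hi)
  simp only [row, cgf, if_true] at h
  rw [h, V_inp hx (by omega), V_inp hx (by omega), Bool.and_eq_true]
  rfl

theorem v1 {i : ℕ} (hi : i < n) : V n L x (nd n L 1 i) = true ↔ Ub n x i ∨ Vb n x i := by
  have h := V_gate hL hn hx (k := 1) (i := i) (by norm_num) (by simpa [bd] using hi)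
  simp only [row, cgf, one_ne_zero, if_true, if_false] at h
  rw [h, V_inp hx (by omega), V_inp hx (by omega), Bool.or_eq_true]
  rfl

include hw

theorem v2 : ∀ i ≤ n, (V n L x (nd n L 2 i) = true ↔ ∃ l < i, Ub n x l ∧ Vb n x l) := by
  intro i
  induction i with
  | zero =>
    intro _
    have h := V_gate hL hn hx (k := 2) (i := 0) (by norm_num) (by simp [bd])
    simp [row, cgf] at h
    rw [h, V_inp hx (by omega), hw]
    simp
  | succ i ih =>
    intro hi
    have h := V_gate hL hn hx (k := 2) (i := i + 1) (by norm_num) (by simp [bd]; omega)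
    simp [row, cgf] at h
    rw [h, Bool.or_eq_true, ih (by omega), v0 hL hn hx (by omega)]
    constructor
    · rintro (⟨l, hl, h1⟩ | h1)
      · exact ⟨l, by omega, h1⟩
      · exact ⟨i, by omega, h1⟩
    · rintro ⟨l, hl, h1⟩
      rcases Nat.lt_succ_iff_lt_or_eq.1 hl with h2 | rfl
      · exact Or.inl ⟨l, h2, h1⟩
      · exact Or.inr h1

theorem v3 : ∀ i ≤ n, (V n L x (nd n L 3 i) = true ↔
    ∃ l < n, n - i ≤ l ∧ Ub n x l ∧ Vb n x l) := by
  intro i
  induction i with
  | zero =>
    intro _
    have h := V_gate hL hn hx (k := 3) (i := 0) (by norm_num) (by simp [bd])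
    simp [row, cgf] at h
    rw [h, V_inp hx (by omega), hw]
    constructor
    · intro h; exact absurd h (by simp)
    · rintro ⟨l, hl, h1, _⟩
      omega
  | succ i ih =>
    intro hi
    have h := V_gate hL hn hx (k := 3) (i := i + 1) (by norm_num) (by simp [bd]; omega)
    simp [row, cgf] at h
    rw [h, Bool.or_eq_true, ih (by omega), v0 hL hn hx (by omega)]
    constructor
    · rintro (⟨l, hl, h1, h2⟩ | h1)
      · exact ⟨l, hl, by omega, h2⟩
      · exact ⟨n - (i + 1), by omega, by omega, h1⟩
    · rintro ⟨l, hl, h1, h2⟩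
      by_cases h3 : l = n - (i + 1)
      · right
        rw [← h3]
        exact h2
      · exact Or.inl ⟨l, hl, by omega, h2⟩

theorem v4 {i : ℕ} (hi : i < n) : V n L x (nd n L 4 i) = true ↔
    ∃ l < n, l ≠ i ∧ Ub n x l ∧ Vb n x l := by
  have h := V_gate hL hn hx (k := 4) (i := i) (by norm_num) (by simpa [bd] using hi)
  simp [row, cgf] at h
  rw [h, Bool.or_eq_true, v2 hL hn hx hw i (by omega), v3 hL hn hx hw (n - 1 - i) (by omega)]
  constructor
  · rintro (⟨l, hl, h1⟩ | ⟨l, hl, h1, h2⟩)
    · exact ⟨l, by omega, by omega, h1⟩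
    · exact ⟨l, hl, by omega, h2⟩
  · rintro ⟨l, hl, h1, h2⟩
    rcases Nat.lt_or_gt_of_ne h1 with h3 | h3
    · exact Or.inl ⟨l, h3, h2⟩
    · exact Or.inr ⟨l, hl, by omega, h2⟩

theorem v5 {i : ℕ} (hi : i < n) : V n L x (nd n L 5 i) = true ↔
    Ub n x i ∧ ∃ l < n, l ≠ i ∧ Ub n x l ∧ Vb n x l := by
  have h := V_gate hL hn hx (k := 5) (i := i) (by norm_num) (by simpa [bd] using hi)
  simp [row, cgf] at h
  rw [h, Bool.and_eq_true, v4 hL hn hx hw hi, V_inp hx (by omega)]
  rfl

theorem v6 {i : ℕ} (hi : i < n) : V n L x (nd n L 6 i) = true ↔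
    Vb n x i ∧ ∃ l < n, l ≠ i ∧ Ub n x l ∧ Vb n x l := by
  have h := V_gate hL hn hx (k := 6) (i := i) (by norm_num) (by simpa [bd] using hi)
  simp [row, cgf] at h
  rw [h, Bool.and_eq_true, v4 hL hn hx hw hi, V_inp hx (by omega)]
  rfl

omit hw

theorem v7 : ∀ i < n, (V n L x (nd n L 7 i) = true ↔ ∀ l < i + 1, Ub n x l ∨ Vb n x l) := by
  intro i
  induction i with
  | zero =>
    intro _
    have h := V_gate hL hn hx (k := 7) (i := 0) (by norm_num) (by simpa [bd] using hn)
    simp [row, cgf] at h
    rw [h, v1 hL hn hx hn]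
    constructor
    · intro h l hl
      obtain rfl : l = 0 := by omega
      exact h
    · intro h
      exact h 0 (by omega)
  | succ i ih =>
    intro hi
    have h := V_gate hL hn hx (k := 7) (i := i + 1) (by norm_num) (by simpa [bd] using hi)
    simp [row, cgf] at h
    rw [h, Bool.and_eq_true, ih (by omega), v1 hL hn hx hi]
    constructor
    · rintro ⟨h1, h2⟩ l hl
      rcases Nat.lt_succ_iff_lt_or_eq.1 hl with h3 | rfl
      · exact h1 l h3
      · exact h2
    · intro h1
      exact ⟨fun l hl => h1 l (by omega), h1 _ (by omega)⟩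

theorem v7' : V n L x (nd n L 7 (n - 1)) = true ↔ KK n x := by
  rw [v7 hL hn hx (n - 1) (by omega)]
  unfold KK
  rw [Nat.sub_add_cancel hn]

theorem v8 : ∀ i < n, (V n L x (nd n L 8 i) = true ↔ ∀ l < i + 1, Ub n x l) := by
  intro i
  induction i with
  | zero =>
    intro _
    have h := V_gate hL hn hx (k := 8) (i := 0) (by norm_num) (by simpa [bd] using hn)
    simp [row, cgf] at h
    rw [h, V_inp hx (by omega)]
    constructor
    · intro h l hl
      obtain rfl : l = 0 := by omega
      exact h
    · intro h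
      exact h 0 (by omega)
  | succ i ih =>
    intro hi
    have h := V_gate hL hn hx (k := 8) (i := i + 1) (by norm_num) (by simpa [bd] using hi)
    simp [row, cgf] at h
    rw [h, Bool.and_eq_true, ih (by omega), V_inp hx (by omega)]
    constructor
    · rintro ⟨h1, h2⟩ l hl
      rcases Nat.lt_succ_iff_lt_or_eq.1 hl with h3 | rfl
      · exact h1 l h3
      · exact h2
    · intro h1
      exact ⟨fun l hl => h1 l (by omega), h1 _ (by omega)⟩

theorem v9 {t : ℕ} (ht : t < n) : V n L x (nd n L 9 t) = true ↔ SS n x t := by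
  have h := V_gate hL hn hx (k := 9) (i := t) (by norm_num) (by simpa [bd] using ht)
  unfold SS
  rcases t with _ | t
  · simp [row, cgf] at h
    rw [h, V_inp hx (by omega)]
    constructor
    · intro h
      exact ⟨h, fun l hl => absurd hl (by omega)⟩
    · intro h
      exact h.1
  · simp [row, cgf] at h
    rw [h, Bool.and_eq_true, V_inp hx (by omega), v8 hL hn hx t (by omega)]
    rfl

theorem v10 {t : ℕ} (ht : t < n) : V n L x (nd n L 10 t) = true ↔ TS n x t := by
  have h := V_gate hL hn hx (k := 10) (i := t) (by norm_num) (by simpa [bd] using ht)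
  simp [row, cgf] at h
  rw [h, Bool.and_eq_true, v9 hL hn hx ht, V_inp hx (by omega)]
  rfl

theorem v11 {t : ℕ} (ht : t < n) : V n L x (nd n L 11 t) = true ↔ RS n x t := by
  have h := V_gate hL hn hx (k := 11) (i := t) (by norm_num) (by simpa [bd] using ht)
  simp [row, cgf] at h
  rw [h, Bool.and_eq_true, v10 hL hn hx ht, V_inp hx (by omega)]
  rfl

theorem v12 : ∀ i ≤ n, (V n L x (nd n L 12 i) = true ↔ KK n x ∨ ∃ t < i, SS n x t) := by
  intro i
  induction i with
  | zero =>
    intro _
    have h := V_gate hL hn hx (k := 12) (i := 0) (by norm_num) (by simp [bd])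
    simp [row, cgf] at h
    rw [h, v7' hL hn hx]
    simp
  | succ i ih =>
    intro hi
    have h := V_gate hL hn hx (k := 12) (i := i + 1) (by norm_num) (by simp [bd]; omega)
    simp [row, cgf] at h
    rw [h, Bool.or_eq_true, ih (by omega), v9 hL hn hx (by omega), or_assoc]
    refine or_congr Iff.rfl ?_
    constructor
    · rintro (⟨l, hl, h1⟩ | h1)
      · exact ⟨l, by omega, h1⟩
      · exact ⟨i, by omega, h1⟩
    · rintro ⟨l, hl, h1⟩
      rcases Nat.lt_succ_iff_lt_or_eq.1 hl with h2 | rfl
      · exact Or.inl ⟨l, h2, h1⟩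
      · exact Or.inr h1

include hw

theorem v13 : ∀ i ≤ n, (V n L x (nd n L 13 i) = true ↔
    (KK n x ∧ FF n x) ∨ ∃ t < i, TS n x t) := by
  intro i
  induction i with
  | zero =>
    intro _
    have h := V_gate hL hn hx (k := 13) (i := 0) (by norm_num) (by simp [bd])
    simp [row, cgf] at h
    rw [h, Bool.and_eq_true, v7' hL hn hx, v2 hL hn hx hw n le_rfl]
    simp [FF]
  | succ i ih =>
    intro hi
    have h := V_gate hL hn hx (k := 13) (i := i + 1) (by norm_num) (by simp [bd]; omega)
    simp [row, cgf] at h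
    rw [h, Bool.or_eq_true, ih (by omega), v10 hL hn hx (by omega), or_assoc]
    refine or_congr Iff.rfl ?_
    constructor
    · rintro (⟨l, hl, h1⟩ | h1)
      · exact ⟨l, by omega, h1⟩
      · exact ⟨i, by omega, h1⟩
    · rintro ⟨l, hl, h1⟩
      rcases Nat.lt_succ_iff_lt_or_eq.1 hl with h2 | rfl
      · exact Or.inl ⟨l, h2, h1⟩
      · exact Or.inr h1

theorem v14 : ∀ i ≤ n, (V n L x (nd n L 14 i) = true ↔ ∃ t < i, RS n x t) := by
  intro i
  induction i with
  | zero =>
    intro _
    have h := V_gate hL hn hx (k := 14) (i := 0) (by norm_num) (by simp [bd])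
    simp [row, cgf] at h
    rw [h, V_inp hx (by omega), hw]
    simp
  | succ i ih =>
    intro hi
    have h := V_gate hL hn hx (k := 14) (i := i + 1) (by norm_num) (by simp [bd]; omega)
    simp [row, cgf] at h
    rw [h, Bool.or_eq_true, ih (by omega), v11 hL hn hx (by omega)]
    constructor
    · rintro (⟨l, hl, h1⟩ | h1)
      · exact ⟨l, by omega, h1⟩
      · exact ⟨i, by omega, h1⟩
    · rintro ⟨l, hl, h1⟩
      rcases Nat.lt_succ_iff_lt_or_eq.1 hl with h2 | rfl
      · exact Or.inl ⟨l, h2, h1⟩
      · exact Or.inr h1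

theorem v15 : V n L x (nd n L 15 0) = true ↔ ¬ gg n x := by
  have h := V_gate hL hn hx (k := 15) (i := 0) (by norm_num) (by simp [bd])
  simp [row, cgf] at h
  rw [h, Bool.not_eq_true', ← Bool.not_eq_true, v13 hL hn hx hw n le_rfl]
  rfl

theorem v16 : V n L x (nd n L 16 0) = true ↔ ¬ gg n x ∧ aa n x := by
  have h := V_gate hL hn hx (k := 16) (i := 0) (by norm_num) (by simp [bd])
  simp [row, cgf] at h
  rw [h, Bool.and_eq_true, v15 hL hn hx hw, v12 hL hn hx n le_rfl]
  rfl

theorem v18 : V n L x (nd n L 18 0) = true ↔ ¬ bb n x ∧ ¬ (¬ gg n x ∧ aa n x) := by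
  have h := V_gate hL hn hx (k := 18) (i := 0) (by norm_num) (by simp [bd])
  have h' := V_gate hL hn hx (k := 17) (i := 0) (by norm_num) (by simp [bd])
  simp [row, cgf] at h h'
  rw [h, Bool.not_eq_true', ← Bool.not_eq_true, h', Bool.or_eq_true, v14 hL hn hx hw n le_rfl,
    v16 hL hn hx hw, not_or]
  rfl

theorem v19 : V n L x (nd n L 19 0) = true ↔ gg n x ∧ ¬ bb n x := by
  have h := V_gate hL hn hx (k := 19) (i := 0) (by norm_num) (by simp [bd])
  simp [row, cgf] at h
  rw [h, Bool.and_eq_true, v13 hL hn hx hw n le_rfl, v18 hL hn hx hw]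
  change gg n x ∧ _ ↔ _
  tauto

theorem v32 {t : ℕ} (ht : t < n) : V n L x (nd n L 32 t) = true ↔ SS n x t ∧ ¬ gg n x := by
  have h := V_gate hL hn hx (k := 32) (i := t) (by norm_num) (by simpa [bd] using ht)
  simp [row, cgf] at h
  rw [h, Bool.and_eq_true, v9 hL hn hx ht, v15 hL hn hx hw]

theorem v33 {t : ℕ} (ht : t < n) : V n L x (nd n L 33 t) = true ↔
    TS n x t ∧ ¬ bb n x ∧ ¬ (¬ gg n x ∧ aa n x) := by
  have h := V_gate hL hn hx (k := 33) (i := t) (by norm_num) (by simpa [bd] using ht)
  simp [row, cgf] at h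
  rw [h, Bool.and_eq_true, v10 hL hn hx ht, v18 hL hn hx hw]

theorem v35 : V n L x (nd n L 35 0) = true ↔
    ¬ gg n x ∧ ¬ bb n x ∧ ¬ (¬ gg n x ∧ aa n x) := by
  have h := V_gate hL hn hx (k := 35) (i := 0) (by norm_num) (by simp [bd])
  simp [row, cgf] at h
  rw [h, Bool.and_eq_true, v15 hL hn hx hw, v18 hL hn hx hw]

omit hw

theorem v34 {t : ℕ} (ht : t < n) : V n L x (nd n L 34 t) = true ↔ RS n x t := by
  have h := V_gate hL hn hx (k := 34) (i := t) (by norm_num) (by simpa [bd] using ht)
  simp [row, cgf] at h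
  rw [h, v11 hL hn hx ht]

theorem v20 {i : ℕ} (hi : i < 3 * n + 2) :
    V n L x (nd n L 20 i) = x.getD i false := by
  have h := V_gate hL hn hx (k := 20) (i := i) (by norm_num) (by simpa [bd] using hi)
  simp [row, cgf] at h
  rw [h, V_inp hx hi]

/-- the ANDs -/
theorem vch {q j : ℕ} (hq : q < 3) (hj : j < L.length) :
    V n L x (nd n L (23 + 3 * q) j) = true ↔ V n L x (zz n L q) = true ∧
      ∀ p ∈ L.getD j [], V n L x (lit n L q p) = true := by
  have hl : (L.getD j []).length ≤ 3 := by
    rw [List.getD_eq_getElem _ _ hj]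
    exact (hL _ (List.getElem_mem _)).1
  have key : V n L x (nd n L (23 + 3 * q) j) = true ↔ V n L x (zz n L q) = true ∧
      V n L x (lr n L q 0 j) = true ∧ V n L x (lr n L q 1 j) = true ∧
      V n L x (lr n L q 2 j) = true := by
    obtain rfl | rfl | rfl : q = 0 ∨ q = 1 ∨ q = 2 := by omega
    · have h1 := V_gate hL hn hx (k := 21) (i := j) (by norm_num) (by simpa [bd] using hj)
      have h2 := V_gate hL hn hx (k := 22) (i := j) (by norm_num) (by simpa [bd] using hj)
      have h3 := V_gate hL hn hx (k := 23) (i := j) (by norm_num) (by simpa [bd] using hj)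
      simp [row, cgf] at h1 h2 h3
      rw [show 23 + 3 * 0 = 23 by norm_num, h3, h2, h1]
      simp only [Bool.and_eq_true]
      tauto
    · have h1 := V_gate hL hn hx (k := 24) (i := j) (by norm_num) (by simpa [bd] using hj)
      have h2 := V_gate hL hn hx (k := 25) (i := j) (by norm_num) (by simpa [bd] using hj)
      have h3 := V_gate hL hn hx (k := 26) (i := j) (by norm_num) (by simpa [bd] using hj)
      simp [row, cgf] at h1 h2 h3
      rw [show 23 + 3 * 1 = 26 by norm_num, h3, h2, h1]
      simp only [Bool.and_eq_true]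
      tauto
    · have h1 := V_gate hL hn hx (k := 27) (i := j) (by norm_num) (by simpa [bd] using hj)
      have h2 := V_gate hL hn hx (k := 28) (i := j) (by norm_num) (by simpa [bd] using hj)
      have h3 := V_gate hL hn hx (k := 29) (i := j) (by norm_num) (by simpa [bd] using hj)
      simp [row, cgf] at h1 h2 h3
      rw [show 23 + 3 * 2 = 29 by norm_num, h3, h2, h1]
      simp only [Bool.and_eq_true]
      tauto
  rw [key]
  have hr : ∀ r, V n L x (lr n L q r j) = true ↔ (if r < (L.getD j []).length then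
      V n L x (lit n L q ((L.getD j []).getD r (0, true))) = true
      else V n L x (zz n L q) = true) := by
    intro r
    unfold lr
    split_ifs <;> rfl
  rw [hr, hr, hr]
  generalize L.getD j [] = T at hl ⊢
  constructor
  · rintro ⟨h1, h2, h3, h4⟩
    refine ⟨h1, fun p hp => ?_⟩
    obtain ⟨r, hr, rfl⟩ := List.getElem_of_mem hp
    have e := List.getD_eq_getElem T (0, true) hr
    rw [← e]
    obtain rfl | rfl | rfl : r = 0 ∨ r = 1 ∨ r = 2 := by omega
    · rwa [if_pos hr] at h2
    · rwa [if_pos hr] at h3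
    · rwa [if_pos hr] at h4
  · rintro ⟨h1, h2⟩
    have h3 : ∀ r, (if r < T.length then V n L x (lit n L q (T.getD r (0, true))) = true
        else V n L x (zz n L q) = true) := by
      intro r
      split_ifs with hr
      · apply h2
        rw [List.getD_eq_getElem _ _ hr]
        exact List.getElem_mem _
      · exact h1
    exact ⟨h1, h3 0, h3 1, h3 2⟩

theorem v30 {j : ℕ} (hj : j < L.length) : V n L x (nd n L 30 j) = true ↔
    (V n L x (nd n L 23 j) = true ∨ V n L x (nd n L 29 j) = true) := by
  have h := V_gate hL hn hx (k := 30) (i := j) (by norm_num) (by simpa [bd] using hj)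
  simp [row, cgf] at h
  rw [h, Bool.or_eq_true]

theorem v31 {j : ℕ} (hj : j < L.length) : V n L x (nd n L 31 j) = true ↔
    (V n L x (nd n L 23 j) = true ∨ V n L x (nd n L 26 j) = true) := by
  have h := V_gate hL hn hx (k := 31) (i := j) (by norm_num) (by simpa [bd] using hj)
  simp [row, cgf] at h
  rw [h, Bool.or_eq_true]

end

end Pool.Agent.Helper48.Neg
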